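import Pool.Agent.H.MP_6c077c_gt.F3.Main
import Pool.Agent.H.MP_6c077c_gt.Gd.Facing
import Pool.Agent.H.MP_6c077c_gt.IxC.CapClass

/-! Cuts at several spherical levels: the order condition slab by slab. -/

set_option autoImplicit false

namespace Pool.Schoen

open Filter Set
open scoped Topology RealInnerProductSpace ContDiff

/-- `s` and `t` are not separated by a level of `L`. -/
def SlabL (L : Set ℝ) (t s : ℝ) : Prop := ∀ c ∈ L, (s < c ↔ t < c)

variable {V : Type*} [NormedAddCommGroup V] [InnerProductSpace ℝ V] [FiniteDimensional ℝ V]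

/-- In the slab of `t` the points with normal `-e` and two negative curvatures are below the
points with normal `e` and two negative curvatures. -/
def OrdW (F : V → ℝ) (e : V) (L : Set ℝ) (t : ℝ) : Prop :=
  ∀ x y, Inward F e x → Idx F e x 2 → Inward F (-e) y → Idx F e y 2 →
    SlabL L t ⟪e, x⟫ → SlabL L t ⟪e, y⟫ → ⟪e, x⟫ < ⟪e, y⟫

/-- The same for the outer side: in the slab of `t` the points with normal `e` and one negative
curvature are below the points with normal `-e` and one negative curvature. -/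
def OrdV (F : V → ℝ) (e : V) (L : Set ℝ) (t : ℝ) : Prop :=
  ∀ x y, Inward F (-e) x → Idx F e x 1 → Inward F e y → Idx F e y 1 →
    SlabL L t ⟪e, x⟫ → SlabL L t ⟪e, y⟫ → ⟪e, x⟫ < ⟪e, y⟫

/-- The order form of the level cuts (one level, not given). -/
theorem f2_ord (hV : Module.finrank ℝ V = 4) {f : V → ℝ} (hf : ContDiff ℝ ∞ f)
    (hb : Bornology.IsBounded {x | f x = 0}) (hreg : ∀ x, f x = 0 → gradient f x ≠ 0)
    (hMc : IsConnected {x | f x = 0}) (hMl : LiftS {x | f x = 0}) {e : V} (he : ‖e‖ = 1)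
    (hnd : ∀ x, Crit f e x → ∃ k, Idx f e x k)
    (hord : ∀ x y, Inward f e x → Idx f e x 2 → Inward f (-e) y → Idx f e y 2 →
      ⟪e, x⟫ < ⟪e, y⟫) : Rd f := by
  have hne : ‖-e‖ = 1 := by rwa [norm_neg]
  have hcr : ∀ x, Crit f e x ↔ Inward f e x ∨ Inward f (-e) x := crit_iff he hreg
  have hf1 : {x | Inward f e x}.Finite :=
    inward_finite hf hb hreg he fun x hx => hnd x ((hcr x).2 (Or.inl hx))
  have hf2 : {x | Inward f (-e) x}.Finite :=
    inward_finite hf hb hreg hne fun x hx => by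
      obtain ⟨k, hk⟩ := hnd x ((hcr x).2 (Or.inr hx))
      exact ⟨k, idx_neg_dir.2 hk⟩
  obtain ⟨a, b, c, h1, h2, hAa, hBb, hSab⟩ := facing_level
    (A := (fun x : V => ⟪e, x⟫) '' {x | Inward f e x ∧ Idx f e x 2})
    (B := (fun x : V => ⟪e, x⟫) '' {x | Inward f (-e) x ∧ Idx f e x 2})
    (S := (fun x : V => ⟪e, x⟫) '' ({x | Inward f e x} ∪ {x | Inward f (-e) x}))
    ((hf1.subset fun x hx => hx.1).image _) ((hf2.subset fun x hx => hx.1).image _)
    ((hf1.union hf2).image _) (by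
      rintro _ ⟨x, ⟨hx, hx2⟩, rfl⟩ _ ⟨y, ⟨hy, hy2⟩, rfl⟩
      exact hord x y hx hx2 hy hy2)
  refine f2_dir hV hf hb hreg hMc hMl he hnd (c := c) (fun x hx hxc => ?_)
    (fun x hx hx2 => ?_) (fun x hx hx2 => ?_)
  · refine hSab ⟪e, x⟫ ⟨x, (hcr x).1 hx, rfl⟩ ?_
    rw [hxc]
    exact ⟨h1.le, h2.le⟩
  · exact (hAa ⟪e, x⟫ ⟨x, ⟨hx, hx2⟩, rfl⟩).trans h1
  · exact h2.trans (hBb ⟪e, x⟫ ⟨x, ⟨hx, hx2⟩, rfl⟩)

/-- The order form for the outer side. -/
theorem f2_ord_neg (hV : Module.finrank ℝ V = 4) {f : V → ℝ} (hf : ContDiff ℝ ∞ f)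
    (hb : Bornology.IsBounded {x | f x = 0}) (hreg : ∀ x, f x = 0 → gradient f x ≠ 0)
    (hMc : IsConnected {x | f x = 0}) (hMl : LiftS {x | f x = 0}) {e : V} (he : ‖e‖ = 1)
    (hnd : ∀ x, Crit f e x → ∃ k, Idx f e x k)
    (hord : ∀ x y, Inward f (-e) x → Idx f e x 1 → Inward f e y → Idx f e y 1 →
      ⟪e, x⟫ < ⟪e, y⟫) : Rd f := by
  have hz : {x | -f x = 0} = {x | f x = 0} := by
    ext x
    exact neg_eq_zero (a := f x)
  have hff : (fun x => - -f x) = f := by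
    funext x
    exact neg_neg _
  have hidx : ∀ x, Idx (fun y => -f y) e x 2 → Idx f e x 1 := by
    intro x hx
    obtain ⟨j, hj, h1⟩ := BaseN_idx_neg hf.neg he hx
    have h2 : j = 1 := by omega
    rw [hff, h2] at h1
    exact h1
  have hin : ∀ (u : V) (x : V), Inward (fun y => -f y) u x → Inward f (-u) x := by
    intro u x hx
    refine CapClass_neg' ?_
    rw [neg_neg]
    exact hx
  have h1 : Rd fun x => -f x := by
    refine f2_ord hV hf.neg (by rw [hz]; exact hb) (fun x hx hg => ?_) (by rw [hz]; exact hMc)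
      (by rw [hz]; exact hMl) he (fun x hx => ?_) (fun x y hx hx2 hy hy2 => ?_)
    · refine hreg x (neg_eq_zero.1 hx) ?_
      have h2 : gradient (fun y => -f y) x = -gradient f x := by
        unfold gradient
        rw [fderiv_fun_neg, map_neg]
      rw [h2, neg_eq_zero] at hg
      exact hg
    · obtain ⟨k, hk⟩ := hnd x (crit_neg.1 hx)
      obtain ⟨j, -, hj⟩ := BaseN_idx_neg hf he hk
      exact ⟨j, hj⟩
    · have h3 := hin _ _ hy
      rw [neg_neg] at h3
      exact hord x y (hin _ _ hx) (hidx x hx2) h3 (hidx y hy2)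
  simpa only [neg_neg] using h1.neg

/-- **Spherical levels.** Let `L` be a finite set of regular levels such that the level sets have the
lifting property. If in every slab between the levels the order condition holds, for one of the two
sides, then the hypersurface bounds a ball. -/
theorem f3_dir (hV : Module.finrank ℝ V = 4) {F : V → ℝ} (hF : ContDiff ℝ ∞ F)
    (hb : Bornology.IsBounded {x | F x = 0}) (hreg : ∀ x, F x = 0 → gradient F x ≠ 0)
    (hMc : IsConnected {x | F x = 0}) (hMl : LiftS {x | F x = 0}) {e : V} (he : ‖e‖ = 1)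
    (hnd : ∀ x, Crit F e x → ∃ k, Idx F e x k) {L : Set ℝ} (hL : L.Finite)
    (hc : ∀ x, Crit F e x → ⟪e, x⟫ ∉ L) (hs : ∀ c ∈ L, LiftS {x | F x = 0 ∧ ⟪e, x⟫ = c})
    (hord : ∀ t, t ∉ L → OrdW F e L t ∨ OrdV F e L t) : Rd F := by
  obtain ⟨A, hA⟩ : ∃ A : ℝ → ℕ → Prop, A = fun s k => ∃ x, Inward F e x ∧ Idx F e x k ∧
    ⟪e, x⟫ = s := ⟨_, rfl⟩
  obtain ⟨B, hB⟩ : ∃ B : ℝ → ℕ → Prop, B = fun s k => ∃ x, Inward F (-e) x ∧ Idx F e x k ∧
    ⟪e, x⟫ = s := ⟨_, rfl⟩
  obtain ⟨S, hS⟩ := k3_start hF hb hreg hMc hMl he hnd hL hc hs (A := A) (B := B)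
    (fun x hx k hk => Or.inr (Or.inr (by rw [hA]; exact ⟨x, hx, hk, rfl⟩)))
    (fun x hx k hk => Or.inr (Or.inr (by rw [hB]; exact ⟨x, hx, hk, rfl⟩)))
  refine k3_rd hV he hL (fun f S h hmiss => ?_) _ S F rfl hS
  have hM : IsConnected {x | f x = 0} := h.topE.zero h.mo.smooth.continuous
  obtain ⟨z, hz⟩ := hM.nonempty
  have hz0 : f z = 0 := hz
  -- all zeros are in one slab
  have himg : IsPreconnected ((fun x : V => ⟪e, x⟫) '' {x | f x = 0}) :=
    hM.isPreconnected.image _ (by fun_prop : Continuous fun x : V => ⟪e, x⟫).continuousOn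
  have hoc := himg.ordConnected
  have hslab : ∀ x, f x = 0 → SlabL L ⟪e, z⟫ ⟪e, x⟫ := by
    intro x hx c hcL
    constructor
    · intro h1
      by_contra h2
      obtain ⟨y, hy, hyc⟩ := hoc.out ⟨x, hx, rfl⟩ ⟨z, hz, rfl⟩ ⟨h1.le, not_lt.1 h2⟩
      refine hmiss y hy ?_
      have hyc' : ⟪e, y⟫ = c := hyc
      rw [hyc']
      exact hcL
    · intro h1
      by_contra h2
      obtain ⟨y, hy, hyc⟩ := hoc.out ⟨z, hz, rfl⟩ ⟨x, hx, rfl⟩ ⟨h1.le, not_lt.1 h2⟩
      refine hmiss y hy ?_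
      have hyc' : ⟪e, y⟫ = c := hyc
      rw [hyc']
      exact hcL
  have hup : ∀ x k, Inward f e x → Idx f e x k → 0 < k → k < 3 →
      ∃ y, Inward F e y ∧ Idx F e y k ∧ ⟪e, y⟫ = ⟪e, x⟫ := by
    intro x k hx hk h1 h2
    rcases h.up x hx k hk with h3 | h3 | h3
    · omega
    · omega
    · rw [hA] at h3
      exact h3
  have hdn : ∀ x k, Inward f (-e) x → Idx f e x k → 0 < k → k < 3 →
      ∃ y, Inward F (-e) y ∧ Idx F e y k ∧ ⟪e, y⟫ = ⟪e, x⟫ := by
    intro x k hx hk h1 h2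
    rcases h.dn x hx k hk with h3 | h3 | h3
    · omega
    · omega
    · rw [hB] at h3
      exact h3
  rcases hord ⟪e, z⟫ (hmiss z hz0) with hW | hW
  · refine f2_ord hV h.mo.smooth h.mo.bdd h.mo.reg hM h.lift he h.mo.nd
      fun x y hx hx2 hy hy2 => ?_
    obtain ⟨x', a1, a2, a3⟩ := hup x 2 hx hx2 (by norm_num) (by norm_num)
    obtain ⟨y', b1, b2, b3⟩ := hdn y 2 hy hy2 (by norm_num) (by norm_num)
    rw [← a3, ← b3]
    refine hW x' y' a1 a2 b1 b2 ?_ ?_
    · rw [a3]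
      exact hslab x hx.1
    · rw [b3]
      exact hslab y hy.1
  · refine f2_ord_neg hV h.mo.smooth h.mo.bdd h.mo.reg hM h.lift he h.mo.nd
      fun x y hx hx2 hy hy2 => ?_
    obtain ⟨x', a1, a2, a3⟩ := hdn x 1 hx hx2 (by norm_num) (by norm_num)
    obtain ⟨y', b1, b2, b3⟩ := hup y 1 hy hy2 (by norm_num) (by norm_num)
    rw [← a3, ← b3]
    refine hW x' y' a1 a2 b1 b2 ?_ ?_
    · rw [a3]
      exact hslab x hx.1
    · rw [b3]
      exact hslab y hy.1

end Pool.Schoen
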