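import Pool.Agent.H.MP_6c077c_gt.F2.ConfDef

/-! Slab by slab form of the facing pair conditions: definitions. -/

set_option autoImplicit false

namespace Pool.Schoen

open scoped RealInnerProductSpace

variable {V : Type*} [NormedAddCommGroup V] [InnerProductSpace ℝ V] [FiniteDimensional ℝ V]

/-- No facing pair of the closure of `M21` in the slab of `t` between consecutive levels of `L`. -/
def NoFaceSlab (F : V → ℝ) (e : V) (L : Set ℝ) (t : ℝ) : Prop :=
  ∀ x ∈ closure (M21 F), ∀ y ∈ closure (M21 F), nrm F x = -e → nrm F y = e →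
    (∀ c ∈ L, (⟪e, x⟫ < c ↔ t < c)) → (∀ c ∈ L, (⟪e, y⟫ < c ↔ t < c)) → ⟪e, x⟫ ≤ ⟪e, y⟫

/-- The same for the pencil of spheres tangent at `w` to the hyperplane orthogonal to `a`. -/
def NoFaceSlabC (F : V → ℝ) (w a : V) (L : Set ℝ) (t : ℝ) : Prop :=
  ∀ x ∈ closure (C21 F w), ∀ y ∈ closure (C21 F w), cNrm F w x = -a → cNrm F w y = a →
    (∀ c ∈ L, (cHt w a x < c ↔ t < c)) → (∀ c ∈ L, (cHt w a y < c ↔ t < c)) →
      cHt w a x ≤ cHt w a y

end Pool.Schoen
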