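import Pool.Agent.H.MP_6c077c_gt.F2.Face21

/-! Slabs: the closure form of the facing condition on slabs, with an epsilon. -/

set_option autoImplicit false

namespace Pool.Schoen

open Filter Set Metric
open scoped Topology RealInnerProductSpace ContDiff

variable {V : Type*} [NormedAddCommGroup V] [InnerProductSpace ℝ V] [FiniteDimensional ℝ V]

omit [FiniteDimensional ℝ V] in
/-- The slab of a height outside of a finite set of levels is locally constant. -/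
theorem SlabEps_same {L : Set ℝ} (hL : L.Finite) {s : ℝ} (hs : s ∉ L) :
    ∀ᶠ t in 𝓝 s, ∀ c ∈ L, (t < c ↔ s < c) := by
  rw [Filter.eventually_all_finite hL]
  intro c hc
  rcases lt_trichotomy s c with h | h | h
  · filter_upwards [gt_mem_nhds h] with t ht
    exact ⟨fun _ => h, fun _ => ht⟩
  · exact absurd (h ▸ hc) hs
  · filter_upwards [lt_mem_nhds h] with t ht
    exact ⟨fun h1 => absurd h1 (not_lt.2 (le_of_lt ht)),
      fun h1 => absurd h1 (not_lt.2 (le_of_lt h))⟩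

/-- The facing condition on the slabs of the type `T` in the form with an epsilon. -/
theorem slab_eps (F : V → ℝ) (hF : ContDiff ℝ ∞ F) (hb : Bornology.IsBounded {x | F x = 0})
    (hreg : ∀ x, F x = 0 → gradient F x ≠ 0) {e : V} (he : ‖e‖ = 1) {L T : Set ℝ}
    (hL : L.Finite) (hlev : ∀ x, Crit F e x → ⟪e, x⟫ ∉ L)
    (hT : ∀ s t : ℝ, (∀ c ∈ L, (s < c ↔ t < c)) → s ∈ T → t ∈ T)
    (h : ∀ x ∈ closure (M21 F), ∀ y ∈ closure (M21 F), nrm F x = -e → nrm F y = e →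
      (∀ c ∈ L, (⟪e, x⟫ < c ↔ ⟪e, y⟫ < c)) → ⟪e, x⟫ ∈ T → ⟪e, x⟫ ≤ ⟪e, y⟫)
    {ε : ℝ} (hε : 0 < ε) :
    ∃ η : ℝ, 0 < η ∧ ∀ x ∈ M21 F, ∀ y ∈ M21 F, ‖nrm F x + e‖ < η → ‖nrm F y - e‖ < η →
      (∀ c ∈ L, (⟪e, x⟫ < c ↔ ⟪e, y⟫ < c)) → ⟪e, x⟫ ∈ T → ⟪e, x⟫ ≤ ⟪e, y⟫ + ε := by
  haveI : ProperSpace V := FiniteDimensional.proper ℝ V
  have _ := he
  have hZ : IsClosed {x | F x = 0} := isClosed_eq hF.continuous continuous_const
  have hsub : closure (M21 F) ⊆ {x | F x = 0} := closure_minimal (fun x hx => hx.1) hZ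
  have hKc : IsCompact (closure (M21 F)) :=
    isCompact_of_isClosed_isBounded isClosed_closure (hb.subset hsub)
  have hn := nrm_continuousOn hF hreg
  by_contra hcon
  push Not at hcon
  have hpos : ∀ n : ℕ, (0 : ℝ) < 1 / ((n : ℝ) + 1) := fun n => by positivity
  choose x hx y hy h1 h2 h3 h4 h5 using fun n : ℕ => hcon (1 / ((n : ℝ) + 1)) (hpos n)
  obtain ⟨p, hp, φ, hφ, hlim⟩ := (hKc.prod hKc).tendsto_subseq
    (x := fun n => (x n, y n)) fun n => ⟨subset_closure (hx n), subset_closure (hy n)⟩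
  have hφ' := hφ.tendsto_atTop
  have hlx : Tendsto (fun n => x (φ n)) atTop (𝓝 p.1) :=
    (continuous_fst.tendsto p).comp hlim
  have hly : Tendsto (fun n => y (φ n)) atTop (𝓝 p.2) :=
    (continuous_snd.tendsto p).comp hlim
  have hp1 : F p.1 = 0 := hsub hp.1
  have hp2 : F p.2 = 0 := hsub hp.2
  have hnx : Tendsto (fun n => nrm F (x (φ n))) atTop (𝓝 (nrm F p.1)) := by
    have h6 : Tendsto (fun n => x (φ n)) atTop (𝓝[{x | F x = 0}] p.1) :=
      tendsto_nhdsWithin_iff.2 ⟨hlx, Eventually.of_forall fun n => (hx (φ n)).1⟩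
    exact (hn p.1 hp1).tendsto.comp h6
  have hny : Tendsto (fun n => nrm F (y (φ n))) atTop (𝓝 (nrm F p.2)) := by
    have h6 : Tendsto (fun n => y (φ n)) atTop (𝓝[{x | F x = 0}] p.2) :=
      tendsto_nhdsWithin_iff.2 ⟨hly, Eventually.of_forall fun n => (hy (φ n)).1⟩
    exact (hn p.2 hp2).tendsto.comp h6
  have hz : Tendsto (fun n : ℕ => 1 / (((φ n : ℕ) : ℝ) + 1)) atTop (𝓝 0) :=
    (tendsto_one_div_add_atTop_nhds_zero_nat (𝕜 := ℝ)).comp hφ'
  have e1 : nrm F p.1 = -e := by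
    have h6 : Tendsto (fun n => ‖nrm F (x (φ n)) + e‖) atTop (𝓝 ‖nrm F p.1 + e‖) :=
      (hnx.add_const e).norm
    have h7 : ‖nrm F p.1 + e‖ ≤ 0 := le_of_tendsto_of_tendsto h6 hz
      (Eventually.of_forall fun n => (h1 (φ n)).le)
    exact eq_neg_of_add_eq_zero_left (norm_le_zero_iff.1 h7)
  have e2 : nrm F p.2 = e := by
    have h6 : Tendsto (fun n => ‖nrm F (y (φ n)) - e‖) atTop (𝓝 ‖nrm F p.2 - e‖) :=
      (hny.sub_const e).norm
    have h7 : ‖nrm F p.2 - e‖ ≤ 0 := le_of_tendsto_of_tendsto h6 hz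
      (Eventually.of_forall fun n => (h2 (φ n)).le)
    exact sub_eq_zero.1 (norm_le_zero_iff.1 h7)
  have hcrit : ∀ z : V, F z = 0 → (nrm F z = e ∨ nrm F z = -e) → Crit F e z := by
    intro z hz hze
    have h6 : gradient F z = ‖gradient F z‖ • nrm F z := by
      rw [nrm, smul_smul, mul_inv_cancel₀ (norm_ne_zero_iff.2 (hreg z hz)), one_smul]
    rcases hze with h7 | h7
    · rw [h7] at h6
      exact crit_of_vert hz h6
    · rw [h7, smul_neg, ← neg_smul] at h6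
      exact crit_of_vert hz h6
  have hc1 := hlev p.1 (hcrit p.1 hp1 (Or.inr e1))
  have hc2 := hlev p.2 (hcrit p.2 hp2 (Or.inl e2))
  have hex : Tendsto (fun n => ⟪e, x (φ n)⟫) atTop (𝓝 ⟪e, p.1⟫) :=
    ((continuous_const.inner continuous_id).tendsto p.1).comp hlx
  have hey : Tendsto (fun n => ⟪e, y (φ n)⟫) atTop (𝓝 ⟪e, p.2⟫) :=
    ((continuous_const.inner continuous_id).tendsto p.2).comp hly
  obtain ⟨n, hn1, hn2⟩ := ((hex.eventually (SlabEps_same hL hc1)).and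
    (hey.eventually (SlabEps_same hL hc2))).exists
  have h6 : ∀ c ∈ L, (⟪e, p.1⟫ < c ↔ ⟪e, p.2⟫ < c) := fun c hc =>
    (hn1 c hc).symm.trans ((h3 (φ n) c hc).trans (hn2 c hc))
  have h7 : ⟪e, p.1⟫ ∈ T := hT _ _ hn1 (h4 (φ n))
  have h8 := h p.1 hp.1 p.2 hp.2 e1 e2 h6 h7
  have h9 : ⟪e, p.2⟫ + ε ≤ ⟪e, p.1⟫ := le_of_tendsto_of_tendsto (hey.add_const ε) hex
    (Eventually.of_forall fun n => (h5 (φ n)).le)
  linarith

end Pool.Schoen
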