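import Pool.Agent.H.MP_6c077c_gt.Al.Forms
import Pool.Agent.H.MP_6c077c_gt.Al.Cls2

/-! Slabs: the index and the normal after a shear in the vertical direction. -/

set_option autoImplicit false

namespace Pool.Schoen

open Filter Set Metric
open scoped Topology RealInnerProductSpace ContDiff

variable {V : Type*} [NormedAddCommGroup V] [InnerProductSpace ℝ V] [FiniteDimensional ℝ V]

/-- The linear part of the shear. -/
noncomputable def shearL (e a : V) : V →L[ℝ] V :=
  ContinuousLinearMap.id ℝ V - (innerSL ℝ a).smulRight e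

omit [FiniteDimensional ℝ V] in
theorem shearL_apply (e a w : V) : shearL e a w = w - ⟪a, w⟫ • e := by
  simp [shearL]

omit [FiniteDimensional ℝ V] in
theorem shearL_inv {e a : V} (ha : ⟪e, a⟫ = 0) (w : V) :
    shearL e a (w + ⟪a, w⟫ • e) = w := by
  have hae : ⟪a, e⟫ = 0 := by rw [real_inner_comm, ha]
  rw [shearL_apply, inner_add_right, real_inner_smul_right, hae, mul_zero, add_zero,
    add_sub_cancel_right]

omit [FiniteDimensional ℝ V] in
theorem shearL_inj {e a : V} (ha : ⟪e, a⟫ = 0) : Function.Injective (shearL e a) := by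
  intro w w' h
  have h1 : ⟪a, shearL e a w⟫ = ⟪a, shearL e a w'⟫ := by rw [h]
  have hae : ⟪a, e⟫ = 0 := by rw [real_inner_comm, ha]
  rw [shearL_apply, shearL_apply, inner_sub_right, inner_sub_right, real_inner_smul_right,
    real_inner_smul_right, hae, mul_zero, mul_zero, sub_zero, sub_zero] at h1
  rw [shearL_apply, shearL_apply, h1] at h
  exact sub_left_injective h

omit [FiniteDimensional ℝ V] in
theorem shearL_inner {e a : V} (he : ‖e‖ = 1) (ha : ⟪e, a⟫ = 0) (w : V) :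
    ⟪shearL e a w, e + a⟫ = ⟪w, e⟫ := by
  have hee : ⟪e, e⟫ = 1 := by rw [real_inner_self_eq_norm_sq, he]; norm_num
  rw [shearL_apply, inner_sub_left, inner_add_right, real_inner_smul_left, inner_add_right, hee,
    ha, real_inner_comm a w]
  ring

omit [FiniteDimensional ℝ V] in
/-- The first derivative after the shear. -/
theorem shear_fderiv {F G : V → ℝ} (hF : ContDiff ℝ ∞ F) {e a x : V} {t : ℝ}
    (h : ∀ᶠ y in 𝓝 x, G y = F (y - (t + ⟪a, y⟫) • e)) :
    ∀ᶠ y in 𝓝 x, fderiv ℝ G y = (fderiv ℝ F (y - (t + ⟪a, y⟫) • e)).comp (shearL e a) := by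
  have hΨ : ∀ y : V, HasFDerivAt (fun y : V => y - (t + ⟪a, y⟫) • e) (shearL e a) y := by
    intro y
    have h1 : (fun y : V => y - (t + ⟪a, y⟫) • e) = fun y => shearL e a y + (-t) • e := by
      funext z
      rw [shearL_apply]
      module
    rw [h1]
    exact (shearL e a).hasFDerivAt.add_const _
  filter_upwards [eventually_eventually_nhds.2 h] with y hy
  have h2 : HasFDerivAt F (fderiv ℝ F (y - (t + ⟪a, y⟫) • e)) (y - (t + ⟪a, y⟫) • e) :=
    ((hF.differentiable (by simp)) _).hasFDerivAt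
  have h3 := h2.comp y (hΨ y)
  exact (h3.congr_of_eventuallyEq hy).fderiv

omit [FiniteDimensional ℝ V] in
/-- The second derivative after the shear. -/
theorem shear_fderiv2 {F G : V → ℝ} (hF : ContDiff ℝ ∞ F) {e a x : V} {t : ℝ}
    (h : ∀ᶠ y in 𝓝 x, G y = F (y - (t + ⟪a, y⟫) • e)) (w w' : V) :
    fderiv ℝ (fderiv ℝ G) x w w' =
      fderiv ℝ (fderiv ℝ F) (x - (t + ⟪a, x⟫) • e) (shearL e a w) (shearL e a w') := by
  have hΨ : HasFDerivAt (fun y : V => y - (t + ⟪a, y⟫) • e) (shearL e a) x := by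
    have h1 : (fun y : V => y - (t + ⟪a, y⟫) • e) = fun y => shearL e a y + (-t) • e := by
      funext z
      rw [shearL_apply]
      module
    rw [h1]
    exact (shearL e a).hasFDerivAt.add_const _
  have hd : Differentiable ℝ (fderiv ℝ F) :=
    (hF.fderiv_right (m := ∞) (by simp)).differentiable (by simp)
  have h2 : HasFDerivAt (fun y : V => fderiv ℝ F (y - (t + ⟪a, y⟫) • e))
      ((fderiv ℝ (fderiv ℝ F) (x - (t + ⟪a, x⟫) • e)).comp (shearL e a)) x :=
    (hd _).hasFDerivAt.comp x hΨ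
  have h3 : HasFDerivAt (fun y : V => (fderiv ℝ F (y - (t + ⟪a, y⟫) • e)).comp (shearL e a))
      (((ContinuousLinearMap.compL ℝ V V ℝ).flip (shearL e a)).comp
        ((fderiv ℝ (fderiv ℝ F) (x - (t + ⟪a, x⟫) • e)).comp (shearL e a))) x :=
    ((ContinuousLinearMap.compL ℝ V V ℝ).flip (shearL e a)).hasFDerivAt.comp x h2
  have h4 := (h3.congr_of_eventuallyEq (shear_fderiv hF h)).fderiv
  rw [h4]
  rfl

/-- The index after the shear. -/
theorem idx_shear {F G : V → ℝ} (hF : ContDiff ℝ ∞ F) (hG : ContDiff ℝ ∞ G) {e a x : V}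
    (he : ‖e‖ = 1) (ha : ⟪e, a⟫ = 0) {t : ℝ}
    (h : ∀ᶠ y in 𝓝 x, G y = F (y - (t + ⟪a, y⟫) • e)) {k : ℕ} :
    Idx G e x k ↔ Idx F (e + a) (x - (t + ⟪a, x⟫) • e) k := by
  have h2 := shear_fderiv2 hF h
  have hinj := shearL_inj (e := e) (a := a) ha
  have hin := shearL_inner (e := e) (a := a) he ha
  constructor
  · rintro ⟨N, P, hS, rfl⟩
    have h3 := idx_of_forms hF (e := e + a) (x := x - (t + ⟪a, x⟫) • e)
      (N.map (shearL e a : V →ₗ[ℝ] V)) (P.map (shearL e a : V →ₗ[ℝ] V)) ?_ ?_ ?_ ?_ ?_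
    · rwa [← (Submodule.equivMapOfInjective (shearL e a : V →ₗ[ℝ] V) hinj N).finrank_eq] at h3
    · rintro _ ⟨w, hw, rfl⟩
      exact (hin w).trans (hS.hN w hw)
    · rintro _ ⟨w, hw, rfl⟩
      exact (hin w).trans (hS.hP w hw)
    · intro w hw
      have h4 : ⟪w + ⟪a, w⟫ • e, e⟫ = 0 := by
        rw [← hin, shearL_inv ha, hw]
      obtain ⟨b, hb, c, hc, hbc⟩ := hS.span _ h4
      refine ⟨shearL e a b, ⟨b, hb, rfl⟩, shearL e a c, ⟨c, hc, rfl⟩, ?_⟩
      rw [← map_add, ← hbc, shearL_inv ha]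
    · rintro _ ⟨w, hw, rfl⟩ hw0
      have h4 : w ≠ 0 := by
        rintro rfl
        exact hw0 (map_zero _)
      have h5 := hS.neg w hw h4
      rw [h2] at h5
      exact h5
    · rintro _ ⟨w, hw, rfl⟩ hw0
      have h4 : w ≠ 0 := by
        rintro rfl
        exact hw0 (map_zero _)
      have h5 := hS.pos w hw h4
      rw [h2] at h5
      exact h5
  · rintro ⟨N, P, hS, rfl⟩
    have hinv : ∀ w, ⟪w, e + a⟫ = 0 → ⟪w + ⟪a, w⟫ • e, e⟫ = 0 := by
      intro w hw
      rw [← hin, shearL_inv ha, hw]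
    let Bi : V →ₗ[ℝ] V := LinearMap.id + (innerSL ℝ a : V →ₗ[ℝ] ℝ).smulRight e
    have hBi : ∀ w, Bi w = w + ⟪a, w⟫ • e := fun w => by simp [Bi]
    have hAB : ∀ w, shearL e a (Bi w) = w := fun w => by rw [hBi, shearL_inv ha]
    have hBinj : Function.Injective Bi := fun w w' hw => by
      rw [← hAB w, hw, hAB]
    have h3 := idx_of_forms hG (e := e) (x := x) (N.map Bi) (P.map Bi) ?_ ?_ ?_ ?_ ?_
    · rwa [← (Submodule.equivMapOfInjective Bi hBinj N).finrank_eq] at h3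
    · rintro _ ⟨w, hw, rfl⟩
      rw [hBi]
      exact hinv w (hS.hN w hw)
    · rintro _ ⟨w, hw, rfl⟩
      rw [hBi]
      exact hinv w (hS.hP w hw)
    · intro w hw
      have h4 : ⟪shearL e a w, e + a⟫ = 0 := by rw [hin, hw]
      obtain ⟨b, hb, c, hc, hbc⟩ := hS.span _ h4
      refine ⟨Bi b, ⟨b, hb, rfl⟩, Bi c, ⟨c, hc, rfl⟩, ?_⟩
      apply hinj
      rw [map_add, hAB, hAB]
      exact hbc
    · rintro _ ⟨w, hw, rfl⟩ hw0
      have h4 : w ≠ 0 := by
        rintro rfl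
        exact hw0 (map_zero _)
      rw [h2, hAB]
      exact hS.neg w hw h4
    · rintro _ ⟨w, hw, rfl⟩ hw0
      have h4 : w ≠ 0 := by
        rintro rfl
        exact hw0 (map_zero _)
      rw [h2, hAB]
      exact hS.pos w hw h4

/-- The gradient after the shear. -/
theorem gradient_shear {F G : V → ℝ} (hF : ContDiff ℝ ∞ F) {e a x : V} {t : ℝ}
    (h : ∀ᶠ y in 𝓝 x, G y = F (y - (t + ⟪a, y⟫) • e)) :
    gradient G x = gradient F (x - (t + ⟪a, x⟫) • e) -
      ⟪gradient F (x - (t + ⟪a, x⟫) • e), e⟫ • a := by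
  refine ext_inner_right ℝ fun w => ?_
  rw [← fderiv_eq_inner_gradient, (shear_fderiv hF h).self_of_nhds, ContinuousLinearMap.comp_apply,
    shearL_apply, fderiv_eq_inner_gradient, inner_sub_right, inner_sub_left,
    real_inner_smul_right, real_inner_smul_left]
  ring

/-- The normal after the shear. -/
theorem inward_shear {F G : V → ℝ} (hF : ContDiff ℝ ∞ F) {e a x : V}
    (he : ‖e‖ = 1) (ha : ⟪e, a⟫ = 0) {t : ℝ}
    (h : ∀ᶠ y in 𝓝 x, G y = F (y - (t + ⟪a, y⟫) • e)) :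
    Inward G e x ↔ Inward F (e + a) (x - (t + ⟪a, x⟫) • e) := by
  have hee : ⟪e, e⟫ = 1 := by rw [real_inner_self_eq_norm_sq, he]; norm_num
  have hae : ⟪a, e⟫ = 0 := by rw [real_inner_comm, ha]
  have h1 := gradient_shear hF h
  have h0 : G x = F (x - (t + ⟪a, x⟫) • e) := h.self_of_nhds
  constructor
  · rintro ⟨h2, l, hl, h3⟩
    refine ⟨by rw [← h0, h2], l, hl, ?_⟩
    rw [h3] at h1
    have h4 : ⟪gradient F (x - (t + ⟪a, x⟫) • e), e⟫ = -l := by
      have h5 : gradient F (x - (t + ⟪a, x⟫) • e) =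
          -(l • e) + ⟪gradient F (x - (t + ⟪a, x⟫) • e), e⟫ • a := by
        rw [h1]
        abel
      have h6 := congrArg (fun v => ⟪v, e⟫) h5
      simp only [inner_add_left, inner_neg_left, real_inner_smul_left, hee, hae] at h6
      linarith
    rw [h4] at h1
    have h5 : gradient F (x - (t + ⟪a, x⟫) • e) = -(l • e) + (-l) • a := by
      rw [h1]
      abel
    rw [h5]
    module
  · rintro ⟨h2, l, hl, h3⟩
    refine ⟨by rw [h0, h2], l, hl, ?_⟩
    rw [h1, h3, inner_neg_left, real_inner_smul_left, inner_add_left, hee, hae]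
    module

/-- The opposite normal after the shear. -/
theorem inward_shear_neg {F G : V → ℝ} (hF : ContDiff ℝ ∞ F) {e a x : V}
    (he : ‖e‖ = 1) (ha : ⟪e, a⟫ = 0) {t : ℝ}
    (h : ∀ᶠ y in 𝓝 x, G y = F (y - (t + ⟪a, y⟫) • e)) :
    Inward G (-e) x ↔ Inward F (-(e + a)) (x - (t + ⟪a, x⟫) • e) := by
  have hee : ⟪e, e⟫ = 1 := by rw [real_inner_self_eq_norm_sq, he]; norm_num
  have hae : ⟪a, e⟫ = 0 := by rw [real_inner_comm, ha]
  have h1 := gradient_shear hF h
  have h0 : G x = F (x - (t + ⟪a, x⟫) • e) := h.self_of_nhds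
  constructor
  · rintro ⟨h2, l, hl, h3⟩
    refine ⟨by rw [← h0, h2], l, hl, ?_⟩
    rw [h3] at h1
    have h4 : ⟪gradient F (x - (t + ⟪a, x⟫) • e), e⟫ = l := by
      have h5 : gradient F (x - (t + ⟪a, x⟫) • e) =
          -(l • -e) + ⟪gradient F (x - (t + ⟪a, x⟫) • e), e⟫ • a := by
        rw [h1]
        abel
      have h6 := congrArg (fun v => ⟪v, e⟫) h5
      simp only [inner_add_left, inner_neg_left, real_inner_smul_left, hee, hae] at h6
      linarith
    rw [h4] at h1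
    have h5 : gradient F (x - (t + ⟪a, x⟫) • e) = -(l • -e) + l • a := by
      rw [h1]
      abel
    rw [h5]
    module
  · rintro ⟨h2, l, hl, h3⟩
    refine ⟨by rw [h0, h2], l, hl, ?_⟩
    rw [h1, h3]
    simp only [inner_neg_left, real_inner_smul_left, inner_add_left, hee, hae]
    module

/-- The index only depends on the line of the direction. -/
theorem idx_smul {F : V → ℝ} {e x : V} {c : ℝ} (hc : c ≠ 0) {k : ℕ} :
    Idx F (c • e) x k ↔ Idx F e x k := by
  have h1 : ∀ w : V, ⟪w, c • e⟫ = 0 ↔ ⟪w, e⟫ = 0 := by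
    intro w
    rw [real_inner_smul_right]
    exact mul_eq_zero_iff_left hc
  constructor
  · rintro ⟨N, P, hS, hk⟩
    exact ⟨N, P, ⟨fun w hw => (h1 w).1 (hS.hN w hw), fun w hw => (h1 w).1 (hS.hP w hw), hS.orth,
      fun w hw => hS.span w ((h1 w).2 hw), hS.diag, hS.neg, hS.pos⟩, hk⟩
  · rintro ⟨N, P, hS, hk⟩
    exact ⟨N, P, ⟨fun w hw => (h1 w).2 (hS.hN w hw), fun w hw => (h1 w).2 (hS.hP w hw), hS.orth,
      fun w hw => hS.span w ((h1 w).1 hw), hS.diag, hS.neg, hS.pos⟩, hk⟩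

theorem inward_smul {F : V → ℝ} {e x : V} {c : ℝ} (hc : 0 < c) :
    Inward F (c • e) x ↔ Inward F e x := by
  constructor
  · rintro ⟨h0, l, hl, h⟩
    exact ⟨h0, l * c, mul_pos hl hc, by rw [h, smul_smul]⟩
  · rintro ⟨h0, l, hl, h⟩
    refine ⟨h0, l / c, div_pos hl hc, ?_⟩
    rw [h, smul_smul, div_mul_cancel₀ l hc.ne']

end Pool.Schoen
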