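import Pool.Agent.H.MP_6c077c_gt.F3.VertB
import Pool.Agent.H.MP_6c077c_gt.F3.VertIdx
import Pool.Agent.H.MP_6c077c_gt.F3.SlabEps
import Pool.Agent.H.MP_6c077c_gt.F3.SlabDef
import Pool.Agent.H.MP_6c077c_gt.F3.Slab

/-! Theorem F3: the closure form, slab by slab. -/

set_option autoImplicit false

namespace Pool.Schoen

open Filter Set Metric
open scoped Topology RealInnerProductSpace ContDiff

variable {V : Type*} [NormedAddCommGroup V] [InnerProductSpace ℝ V] [FiniteDimensional ℝ V]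
  {F : V → ℝ} {e : V} {L : Set ℝ}

/-- A union of slabs. -/
def Sat (L T : Set ℝ) : Prop := ∀ s t : ℝ, (∀ c ∈ L, (s < c ↔ t < c)) → s ∈ T → t ∈ T

theorem Sat.compl {T : Set ℝ} (h : Sat L T) : Sat L Tᶜ :=
  fun s t hst hs ht => hs (h t s (fun c hc => (hst c hc).symm) ht)

omit [FiniteDimensional ℝ V] in
/-- The critical points with heights in a union of slabs. -/
theorem closV_closed (hF : ContDiff ℝ ∞ F) (hL : L.Finite) (hlev : ∀ x, Crit F e x → ⟪e, x⟫ ∉ L)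
    {T : Set ℝ} (hT : Sat L T) : IsClosed {x | Crit F e x ∧ ⟪e, x⟫ ∈ T} := by
  have hcr : IsClosed {x | Crit F e x} := by
    have h1 : {x | Crit F e x} = {x | F x = 0} ∩ ⋂ w : V, {x | ⟪w, e⟫ = 0 → fderiv ℝ F x w = 0} := by
      ext x
      simp only [Crit, mem_inter_iff, mem_iInter, mem_ofPred_eq]
    rw [h1]
    refine (isClosed_eq hF.continuous continuous_const).inter (isClosed_iInter fun w => ?_)
    by_cases hw : ⟪w, e⟫ = 0
    · have h2 : {x | ⟪w, e⟫ = 0 → fderiv ℝ F x w = 0} = {x | fderiv ℝ F x w = 0} := by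
        ext x
        exact ⟨fun h => h hw, fun h _ => h⟩
      rw [h2]
      exact isClosed_eq ((hF.continuous_fderiv (by simp)).clm_apply continuous_const)
        continuous_const
    · have h2 : {x | ⟪w, e⟫ = 0 → fderiv ℝ F x w = 0} = univ := by
        ext x
        exact ⟨fun _ => mem_univ _, fun _ h => absurd h hw⟩
      rw [h2]
      exact isClosed_univ
  refine isClosed_of_closure_subset fun z hz => ?_
  have hzc : Crit F e z := closure_minimal (fun x hx => hx.1) hcr hz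
  refine ⟨hzc, ?_⟩
  have h1 := SlabEps_same hL (hlev z hzc)
  have h2 : Tendsto (fun x : V => ⟪e, x⟫) (𝓝 z) (𝓝 ⟪e, z⟫) :=
    (continuous_const.inner continuous_id).tendsto z
  obtain ⟨x, hx1, hx2⟩ := mem_closure_iff_nhds.1 hz _ (h2.eventually h1)
  exact hT _ _ hx1 hx2.2

/-- The localisation of the critical points, from `vert_local`. -/
def VLoc (F s χ : V → ℝ) (e : V) (L : Set ℝ) (A B : Set V) (p : ℝ × V) : Prop :=
  ∀ x, Crit (vG F s χ e p) e x → ∃ y, Crit F e y ∧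
      ((y ∈ A ∧ (∀ᶠ x' in 𝓝 x, vG F s χ e p x' = F (x' - (p.1 + ⟪p.2, x'⟫) • e)) ∧
          ∀ c ∈ L, (⟪e, x - (p.1 + ⟪p.2, x⟫) • e⟫ < c ↔ ⟪e, y⟫ < c)) ∨
        (y ∈ B ∧ (∀ᶠ x' in 𝓝 x, vG F s χ e p x' = F (x' - (-p.1 + ⟪p.2, x'⟫) • e)) ∧
          ∀ c ∈ L, (⟪e, x - (-p.1 + ⟪p.2, x⟫) • e⟫ < c ↔ ⟪e, y⟫ < c))) ∧
      (∀ c ∈ L, (⟪e, x⟫ < c ↔ ⟪e, y⟫ < c)) ∧
      (Inward (vG F s χ e p) e x → Inward F e y) ∧
      (Inward (vG F s χ e p) (-e) x → Inward F (-e) y)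

omit [FiniteDimensional ℝ V] in
theorem closV_height (he : ‖e‖ = 1) (x : V) (t : ℝ) : ⟪e, x - t • e⟫ = ⟪e, x⟫ - t := by
  rw [inner_sub_right, real_inner_smul_right, real_inner_self_eq_norm_sq, he]
  ring

/-- The order in one slab after the displacement. -/
theorem closV_ord (hV : Module.finrank ℝ V = 4) (hF : ContDiff ℝ ∞ F) (he : ‖e‖ = 1)
    {s χ : V → ℝ} (hs : ContDiff ℝ ∞ s) (hχ : ContDiff ℝ ∞ χ) {A B : Set V} {δ : ℝ} {a : V}
    (hloc : VLoc F s χ e L A B (δ, a)) (hδ : 0 < δ) (ha : ⟪e, a⟫ = 0) {e' : V} {τ : ℝ}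
    (hτ : 0 < τ) (he' : ‖e'‖ = 1) (hea : e + a = τ • e') {η : ℝ} (hee : ‖e' - e‖ < η)
    {T : Set ℝ} (hT : Sat L T) {t : ℝ} (ht : t ∈ T)
    (hA : ∀ y, Crit F e y → Inward F e y → ⟪e, y⟫ ∈ T → y ∉ A)
    (hB : ∀ y, Crit F e y → Inward F (-e) y → ⟪e, y⟫ ∈ T → y ∉ B)
    (hη : ∀ x ∈ M21 F, ∀ y ∈ M21 F, ‖nrm F x + e‖ < η → ‖nrm F y - e‖ < η →
      (∀ c ∈ L, (⟪e, x⟫ < c ↔ ⟪e, y⟫ < c)) → ⟪e, x⟫ ∈ T → ⟪e, x⟫ ≤ ⟪e, y⟫ + δ)
    (hsm : ∀ x, vG F s χ e (δ, a) x = 0 → |⟪a, x⟫| ≤ δ / 4) : OrdW (vG F s χ e (δ, a)) e L t := by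
  intro x y hx hx2 hy hy2 htx hty
  have hG : ContDiff ℝ ∞ (vG F s χ e (δ, a)) := vG_smooth' hF hs hχ _
  have hne' : ‖-e'‖ = 1 := by rwa [norm_neg]
  obtain ⟨x1, hx1, hx1s, hx1h, hx1i, -⟩ := hloc x (hx.crit he)
  obtain ⟨y1, hy1, hy1s, hy1h, -, hy1i⟩ := hloc y (hy.crit_neg he)
  have hxT : ⟪e, x1⟫ ∈ T := hT t _ (fun c hc => ((htx c hc).symm).trans (hx1h c hc)) ht
  have hyT : ⟪e, y1⟫ ∈ T := hT t _ (fun c hc => ((hty c hc).symm).trans (hy1h c hc)) ht
  -- `x` is moved down, `y` is moved up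
  obtain ⟨hxf, hxs⟩ : (∀ᶠ x' in 𝓝 x, vG F s χ e (δ, a) x' = F (x' - (-δ + ⟪a, x'⟫) • e)) ∧
      ∀ c ∈ L, (⟪e, x - (-δ + ⟪a, x⟫) • e⟫ < c ↔ ⟪e, x1⟫ < c) := by
    rcases hx1s with ⟨h1, -⟩ | ⟨-, h1⟩
    · exact absurd h1 (hA x1 hx1 (hx1i hx) hxT)
    · exact h1
  obtain ⟨hyf, hys⟩ : (∀ᶠ x' in 𝓝 y, vG F s χ e (δ, a) x' = F (x' - (δ + ⟪a, x'⟫) • e)) ∧
      ∀ c ∈ L, (⟪e, y - (δ + ⟪a, y⟫) • e⟫ < c ↔ ⟪e, y1⟫ < c) := by
    rcases hy1s with ⟨-, h1⟩ | ⟨h1, -⟩
    · exact h1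
    · exact absurd h1 (hB y1 hy1 (hy1i hy) hyT)
  obtain ⟨zx, hzx⟩ : ∃ z, z = x - (-δ + ⟪a, x⟫) • e := ⟨_, rfl⟩
  obtain ⟨zy, hzy⟩ : ∃ z, z = y - (δ + ⟪a, y⟫) • e := ⟨_, rfl⟩
  have hxin : Inward F e' zx := by
    have h1 := (inward_shear hF he ha hxf).1 hx
    rw [hea, inward_smul hτ, ← hzx] at h1
    exact h1
  have hyin : Inward F (-e') zy := by
    have h1 := (inward_shear_neg hF he ha hyf).1 hy
    rw [hea, ← smul_neg, inward_smul hτ, ← hzy] at h1
    exact h1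
  have hxidx : Idx F e' zx 2 := by
    have h1 := (idx_shear hF hG he ha hxf).1 hx2
    rw [hea, idx_smul hτ.ne', ← hzx] at h1
    exact h1
  have hyidx : Idx F e' zy 2 := by
    have h1 := (idx_shear hF hG he ha hyf).1 hy2
    rw [hea, idx_smul hτ.ne', ← hzy] at h1
    exact h1
  have hxM := m21_of_idx hV he' (hxin.crit he') hxidx
  have hyM := m21_of_idx hV he' (hyin.crit_neg he') hyidx
  have h1 := hη zx hxM zy hyM
    (by
      rw [plane_nrm_of_inward he' hxin, neg_add_eq_sub, norm_sub_rev]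
      exact hee)
    (by
      rw [plane_nrm_of_inward hne' hyin, neg_neg]
      exact hee)
    (fun c hc => by
      rw [hzx, hzy, hxs c hc, hys c hc, ← hx1h c hc, ← hy1h c hc, htx c hc, hty c hc])
    (hT _ _ (fun c hc => by rw [hzx]; exact (hxs c hc).symm) hxT)
  have h2 := (abs_le.1 (hsm x hx.1)).2
  have h3 := (abs_le.1 (hsm y hy.1)).1
  have h4 : ⟪e, zx⟫ = ⟪e, x⟫ - (-δ + ⟪a, x⟫) := by rw [hzx, closV_height he]
  have h5 : ⟪e, zy⟫ = ⟪e, y⟫ - (δ + ⟪a, y⟫) := by rw [hzy, closV_height he]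
  linarith

theorem closV_neg_inward {G : V → ℝ} {x : V} (h : Inward G (-e) x) :
    Inward (fun y => -G y) e x := by
  obtain ⟨h0, l, hl, h1⟩ := h
  refine ⟨neg_eq_zero.2 h0, l, hl, ?_⟩
  have h2 : gradient (fun y => -G y) x = -gradient G x := by
    unfold gradient
    rw [fderiv_fun_neg, map_neg]
  rw [h2, h1, smul_neg, neg_neg]

theorem closV_neg_inward' {G : V → ℝ} {x : V} (h : Inward G e x) :
    Inward (fun y => -G y) (-e) x := closV_neg_inward (by rwa [neg_neg])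

/-- The order condition for the outer side. -/
theorem closV_ordV (hV : Module.finrank ℝ V = 4) {G : V → ℝ} (hG : ContDiff ℝ ∞ G) (he : ‖e‖ = 1)
    {t : ℝ} (h : OrdW (fun x => -G x) e L t) : OrdV G e L t := by
  have key : ∀ x, Idx G e x 1 → Idx (fun y => -G y) e x 2 := by
    intro x hx
    obtain ⟨j, hj, h1⟩ := BaseN_idx_neg hG he hx
    have h2 : j = 2 := by omega
    rwa [h2] at h1
  intro x y hx hx1 hy hy1 h1 h2
  exact h x y (closV_neg_inward hx) (key x hx1) (closV_neg_inward' hy) (key y hy1) h1 h2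

theorem closV_inward_fderiv {G : V → ℝ} {u x : V} (hu : ‖u‖ = 1)
    (h : Inward G u x) : fderiv ℝ G x u < 0 := by
  obtain ⟨-, l, hl, h1⟩ := h
  have h2 : fderiv ℝ G x u = ⟪gradient G x, u⟫ := by
    rw [gradient, InnerProductSpace.toDual_symm_apply]
  rw [h2, h1, inner_neg_left, real_inner_smul_left, real_inner_self_eq_norm_sq, hu]
  linarith

/-- **Spherical levels, closure form.** Let `L` be a finite set of regular levels such that the level
sets have the lifting property. If in every slab between the levels there are no facing pairs, for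
one of the two sides, then the hypersurface bounds a ball. -/
theorem f3_rd (hV : Module.finrank ℝ V = 4) {F : V → ℝ} {L : Set ℝ} (hF : ContDiff ℝ ∞ F)
    (hb : Bornology.IsBounded {x | F x = 0}) (hreg : ∀ x, F x = 0 → gradient F x ≠ 0)
    (hMc : IsConnected {x | F x = 0}) (hMl : LiftS {x | F x = 0}) {e : V} (he : ‖e‖ = 1)
    (hL : L.Finite) (hlev : ∀ x, Crit F e x → ⟪e, x⟫ ∉ L)
    (hsl : ∀ c ∈ L, LiftS {x | F x = 0 ∧ ⟪e, x⟫ = c})
    (h : ∀ t, t ∉ L → NoFaceSlab F e L t ∨ NoFaceSlab (fun x => -F x) e L t) : Rd F := by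
  classical
  have : ProperSpace V := FiniteDimensional.proper ℝ V
  have hne : ‖-e‖ = 1 := by rwa [norm_neg]
  -- the function `-F`
  have hFn : ContDiff ℝ ∞ fun x => -F x := hF.neg
  have hzn : {x | -F x = 0} = {x | F x = 0} := by
    ext x
    exact neg_eq_zero (a := F x)
  have hbn : Bornology.IsBounded {x | -F x = 0} := by
    rw [hzn]
    exact hb
  have hgn : ∀ x, gradient (fun y => -F y) x = -gradient F x := by
    intro x
    unfold gradient
    rw [fderiv_fun_neg, map_neg]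
  have hregn : ∀ x, -F x = 0 → gradient (fun y => -F y) x ≠ 0 := by
    intro x hx hg
    rw [hgn, neg_eq_zero] at hg
    exact hreg x (neg_eq_zero.1 hx) hg
  have hlevn : ∀ x, Crit (fun y => -F y) e x → ⟪e, x⟫ ∉ L := fun x hx => hlev x (crit_neg.1 hx)
  -- the two kinds of slabs
  obtain ⟨T, hTd⟩ : ∃ T : Set ℝ, T = {t | NoFaceSlab F e L t} := ⟨_, rfl⟩
  obtain ⟨T2, hT2d⟩ : ∃ T2 : Set ℝ, T2 = {t | NoFaceSlab (fun x => -F x) e L t} ∩ Tᶜ := ⟨_, rfl⟩
  have hsat : ∀ G : V → ℝ, Sat L {t | NoFaceSlab G e L t} := by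
    intro G s t hst hs x hx y hy h1 h2 h3 h4
    exact hs x hx y hy h1 h2 (fun c hc => (h3 c hc).trans (hst c hc).symm)
      (fun c hc => (h4 c hc).trans (hst c hc).symm)
  have hTs : Sat L T := by
    rw [hTd]
    exact hsat F
  have hT2s : Sat L T2 := by
    rw [hT2d]
    intro s t hst hs
    exact ⟨hsat _ s t hst hs.1, hTs.compl s t hst hs.2⟩
  -- the two sets of critical points
  obtain ⟨A, hA⟩ : ∃ A : Set V, A = ({x | Crit F e x ∧ ⟪e, x⟫ ∈ T} ∩ {x | 0 ≤ fderiv ℝ F x e}) ∪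
      ({x | Crit F e x ∧ ⟪e, x⟫ ∈ Tᶜ} ∩ {x | fderiv ℝ F x e ≤ 0}) := ⟨_, rfl⟩
  obtain ⟨B, hB⟩ : ∃ B : Set V, B = ({x | Crit F e x ∧ ⟪e, x⟫ ∈ T} ∩ {x | fderiv ℝ F x e ≤ 0}) ∪
      ({x | Crit F e x ∧ ⟪e, x⟫ ∈ Tᶜ} ∩ {x | 0 ≤ fderiv ℝ F x e}) := ⟨_, rfl⟩
  have hder : Continuous fun x => fderiv ℝ F x e :=
    (hF.continuous_fderiv (by simp)).clm_apply continuous_const
  have hc1 : IsClosed {x | 0 ≤ fderiv ℝ F x e} := isClosed_le continuous_const hder
  have hc2 : IsClosed {x | fderiv ℝ F x e ≤ 0} := isClosed_le hder continuous_const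
  have hk1 := closV_closed hF hL hlev hTs
  have hk2 := closV_closed hF hL hlev hTs.compl
  have hAcl : IsClosed A := by
    rw [hA]
    exact (hk1.inter hc1).union (hk2.inter hc2)
  have hBcl : IsClosed B := by
    rw [hB]
    exact (hk1.inter hc2).union (hk2.inter hc1)
  have hAcr : ∀ x ∈ A, Crit F e x := by
    intro x hx
    rw [hA] at hx
    rcases hx with hx | hx
    · exact hx.1.1
    · exact hx.1.1
  have hBcr : ∀ x ∈ B, Crit F e x := by
    intro x hx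
    rw [hB] at hx
    rcases hx with hx | hx
    · exact hx.1.1
    · exact hx.1.1
  have hAc : IsCompact A :=
    isCompact_of_isClosed_isBounded hAcl (hb.subset fun x hx => (hAcr x hx).1)
  have hBc : IsCompact B :=
    isCompact_of_isClosed_isBounded hBcl (hb.subset fun x hx => (hBcr x hx).1)
  have hder0 : ∀ x, Crit F e x → fderiv ℝ F x e ≠ 0 := by
    intro x hx
    rcases (crit_iff he hreg x).1 hx with h1 | h1
    · exact (closV_inward_fderiv he h1).ne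
    · have h2 := closV_inward_fderiv hne h1
      rw [map_neg] at h2
      intro h3
      rw [h3, neg_zero] at h2
      exact lt_irrefl _ h2
  have hdAB : Disjoint A B := by
    rw [Set.disjoint_left]
    intro x hxA hxB
    have h0 := hder0 x (hAcr x hxA)
    rw [hA] at hxA
    rw [hB] at hxB
    rcases hxA with ⟨h1, h2⟩ | ⟨h1, h2⟩
    · rcases hxB with ⟨h3, h4⟩ | ⟨h3, h4⟩
      · exact h0 (le_antisymm h4 h2)
      · exact h3.2 h1.2
    · rcases hxB with ⟨h3, h4⟩ | ⟨h3, h4⟩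
      · exact h1.2 h3.2
      · exact h0 (le_antisymm h2 h4)
  have hAB : ∀ x : V, Crit F e x → x ∈ A ∨ x ∈ B := by
    intro x hx
    rw [hA, hB]
    by_cases hxT : ⟪e, x⟫ ∈ T
    · rcases le_total 0 (fderiv ℝ F x e) with h1 | h1
      · exact Or.inl (Or.inl ⟨⟨hx, hxT⟩, h1⟩)
      · exact Or.inr (Or.inl ⟨⟨hx, hxT⟩, h1⟩)
    · rcases le_total 0 (fderiv ℝ F x e) with h1 | h1
      · exact Or.inr (Or.inr ⟨⟨hx, hxT⟩, h1⟩)
      · exact Or.inl (Or.inr ⟨⟨hx, hxT⟩, h1⟩)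
  have hZ : IsClosed {x : V | ⟪e, x⟫ ∈ L} :=
    hL.isClosed.preimage (continuous_const.inner continuous_id)
  obtain ⟨s, χ, hs, hχ, cs, cχ, hsA, hsB, hsZ⟩ := vert_bumps hAc hBc hZ hdAB
    (Set.disjoint_left.2 fun x hx hx' => hlev x (hAcr x hx) hx')
    (Set.disjoint_left.2 fun x hx hx' => hlev x (hBcr x hx) hx')
  -- small parameters
  have hl1 := vert_local hF hb hreg he hL hlev hAB hs hχ cs cχ hsA hsB
  have hl2 := vert_local hFn hbn hregn he hL hlevn (fun x hx => hAB x (crit_neg.1 hx)) hs hχ cs cχ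
    hsA hsB
  obtain ⟨r, hr, hball⟩ := Metric.eventually_nhds_iff_ball.1
    ((hl1.and hl2).and (vsmall_eventually hs hχ cs cχ))
  obtain ⟨δ, hδ⟩ : ∃ δ : ℝ, δ = r / 2 := ⟨_, rfl⟩
  have hδ0 : 0 < δ := by
    rw [hδ]
    positivity
  obtain ⟨η1, hη1, hη1'⟩ := slab_eps F hF hb hreg he hL hlev hTs (fun x hx y hy h1 h2 h3 h4 => by
    have h5 : NoFaceSlab F e L ⟪e, x⟫ := by
      rw [hTd] at h4
      exact h4
    exact h5 x hx y hy h1 h2 (fun c _ => Iff.rfl) (fun c hc => (h3 c hc).symm)) hδ0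
  obtain ⟨η2, hη2, hη2'⟩ := slab_eps (fun x => -F x) hFn hbn hregn he hL hlevn hT2s
    (fun x hx y hy h1 h2 h3 h4 => by
      have h5 : NoFaceSlab (fun x => -F x) e L ⟪e, x⟫ := by
        rw [hT2d] at h4
        exact h4.1
      exact h5 x hx y hy h1 h2 (fun c _ => Iff.rfl) (fun c hc => (h3 c hc).symm)) hδ0
  obtain ⟨R, hR⟩ := hb.exists_norm_le
  have hR' : ∀ x, F x = 0 → ‖x‖ ≤ R := hR
  have hK : IsCompact {x | F x = 0} :=
    isCompact_of_isClosed_isBounded (isClosed_eq hF.continuous continuous_const) hb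
  have hR1 : 0 < |R| + 1 := by positivity
  obtain ⟨ε, hε⟩ : ∃ ε : ℝ, ε = min (min η1 η2) (min (1 / 2) (min (r / 8) (δ / (16 * (|R| + 1))))) :=
    ⟨_, rfl⟩
  have hε0 : 0 < ε := by
    rw [hε]
    positivity
  obtain ⟨e', he', hee, hgK⟩ := exists_regular_both 3 hV F hF hreg hK e he ε hε0
  have e1 : ‖e' - e‖ < η1 := hee.trans_le (by
    rw [hε]
    exact (min_le_left _ _).trans (min_le_left _ _))
  have e2 : ‖e' - e‖ < η2 := hee.trans_le (by
    rw [hε]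
    exact (min_le_left _ _).trans (min_le_right _ _))
  have e3 : ‖e' - e‖ < 1 / 2 := hee.trans_le (by
    rw [hε]
    exact (min_le_right _ _).trans (min_le_left _ _))
  have e4 : ‖e' - e‖ < r / 8 := hee.trans_le (by
    rw [hε]
    exact (min_le_right _ _).trans ((min_le_right _ _).trans (min_le_left _ _)))
  have e5 : ‖e' - e‖ < δ / (16 * (|R| + 1)) := hee.trans_le (by
    rw [hε]
    exact (min_le_right _ _).trans ((min_le_right _ _).trans (min_le_right _ _)))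
  -- the tilt
  obtain ⟨τ, hτ⟩ : ∃ τ : ℝ, τ = ⟪e, e'⟫ := ⟨_, rfl⟩
  have hτ1 : |τ - 1| ≤ ‖e' - e‖ := by
    have h1 : τ - 1 = ⟪e, e' - e⟫ := by
      rw [inner_sub_right, real_inner_self_eq_norm_sq, he, hτ]
      norm_num
    rw [h1]
    refine (abs_real_inner_le_norm _ _).trans ?_
    rw [he, one_mul]
  have hτ2 : 1 / 2 < τ := by
    have := (abs_le.1 hτ1).1
    linarith
  have hτ0 : 0 < τ := by linarith
  obtain ⟨a, ha⟩ : ∃ a : V, a = τ⁻¹ • e' - e := ⟨_, rfl⟩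
  have hae : ⟪e, a⟫ = 0 := by
    rw [ha, inner_sub_right, real_inner_smul_right, real_inner_self_eq_norm_sq, he, ← hτ,
      inv_mul_cancel₀ hτ0.ne']
    norm_num
  have hea : e + a = τ⁻¹ • e' := by
    rw [ha]
    abel
  have han : ‖a‖ ≤ 4 * ‖e' - e‖ := by
    have h1 : a = τ⁻¹ • ((e' - e) + (1 - τ) • e) := by
      rw [ha, smul_add, smul_sub, smul_smul, mul_sub, inv_mul_cancel₀ hτ0.ne', mul_one, sub_smul,
        one_smul]
      abel
    have h2 : ‖(e' - e) + (1 - τ) • e‖ ≤ 2 * ‖e' - e‖ := by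
      refine (norm_add_le _ _).trans ?_
      rw [norm_smul, he, mul_one, Real.norm_eq_abs, abs_sub_comm]
      linarith
    have h3 : τ⁻¹ ≤ 2 := by
      rw [inv_le_comm₀ hτ0 two_pos]
      linarith
    rw [h1, norm_smul, norm_inv, Real.norm_of_nonneg hτ0.le]
    calc τ⁻¹ * ‖(e' - e) + (1 - τ) • e‖ ≤ 2 * (2 * ‖e' - e‖) :=
          mul_le_mul h3 h2 (norm_nonneg _) (by norm_num)
      _ = 4 * ‖e' - e‖ := by ring
  have hpr : ((δ, a) : ℝ × V) ∈ ball (0 : ℝ × V) r := by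
    rw [mem_ball_zero_iff, Prod.norm_def]
    refine max_lt ?_ ?_
    · show ‖δ‖ < r
      rw [Real.norm_of_nonneg hδ0.le, hδ]
      linarith
    · show ‖a‖ < r
      linarith
  obtain ⟨⟨hloc1, hloc2⟩, hsmall⟩ := hball _ hpr
  have hG : ContDiff ℝ ∞ (vG F s χ e (δ, a)) := vG_smooth' hF hs hχ _
  have hhom : Hom F (vG F s χ e (δ, a)) := vG_hom hF hb hreg he hs hχ hsmall
  obtain ⟨hGc, hGl⟩ := zero_hom hhom hF hG hMc hMl
  have hGn : (vG (fun x => -F x) s χ e (δ, a)) = fun x => -(vG F s χ e (δ, a) x) := rfl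
  have hGb : ∀ x, vG F s χ e (δ, a) x = 0 → ‖x‖ ≤ R + 1 := fun x hx => vG_bdd he hR' hsmall hx
  have hGreg : ∀ x, vG F s χ e (δ, a) x = 0 → gradient (vG F s χ e (δ, a)) x ≠ 0 := by
    intro x hx h0
    obtain ⟨w, hw⟩ := vG_reg hF hs hχ hreg he hsmall hx
    rw [fderiv_eq_inner_gradient, h0, inner_zero_left] at hw
    exact lt_irrefl _ hw
  have hsm : ∀ x, vG F s χ e (δ, a) x = 0 → |⟪a, x⟫| ≤ δ / 4 := by
    intro x hx
    have h1 : ‖x‖ ≤ |R| + 1 := (hGb x hx).trans (by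
      have := le_abs_self R
      linarith)
    have h2 : ‖e' - e‖ * (16 * (|R| + 1)) ≤ δ := by
      have h3 := mul_le_mul_of_nonneg_right e5.le (by positivity : 0 ≤ 16 * (|R| + 1))
      rwa [div_mul_cancel₀ _ (by positivity : (16 * (|R| + 1)) ≠ 0)] at h3
    calc |⟪a, x⟫| ≤ ‖a‖ * ‖x‖ := abs_real_inner_le_norm _ _
      _ ≤ (4 * ‖e' - e‖) * (|R| + 1) := mul_le_mul han h1 (norm_nonneg _) (by positivity)
      _ ≤ δ / 4 := by linarith
  have hcr : ∀ x, Crit (vG F s χ e (δ, a)) e x ↔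
      Inward (vG F s χ e (δ, a)) e x ∨ Inward (vG F s χ e (δ, a)) (-e) x := crit_iff he hGreg
  have hτi : 0 < τ⁻¹ := inv_pos.2 hτ0
  have hne' : ‖-e'‖ = 1 := by rwa [norm_neg]
  -- nondegeneracy
  have hnd0 : ∀ (x : V) (t : ℝ), Crit (vG F s χ e (δ, a)) e x →
      (∀ᶠ x' in 𝓝 x, vG F s χ e (δ, a) x' = F (x' - (t + ⟪a, x'⟫) • e)) →
      ∃ k, Idx (vG F s χ e (δ, a)) e x k := by
    intro x t hx hf
    have hex : ∃ k, Idx F e' (x - (t + ⟪a, x⟫) • e) k := by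
      rcases (hcr x).1 hx with h1 | h1
      · have h2 := (inward_shear hF he hae hf).1 h1
        rw [hea, inward_smul hτi] at h2
        exact ⟨_, idx_of_gaussK 3 hV F hF e' he' _ h2
          (hgK _ h2.1 (Or.inr (plane_nrm_of_inward he' h2)))⟩
      · have h2 := (inward_shear_neg hF he hae hf).1 h1
        rw [hea, ← smul_neg, inward_smul hτi] at h2
        refine ⟨_, idx_neg_dir.1 (idx_of_gaussK 3 hV F hF (-e') hne' _ h2
          (hgK _ h2.1 (Or.inl ?_)))⟩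
        rw [plane_nrm_of_inward hne' h2, neg_neg]
    obtain ⟨k, hk⟩ := hex
    refine ⟨k, (idx_shear hF hG he hae hf).2 ?_⟩
    rw [hea, idx_smul hτi.ne']
    exact hk
  have hnd : ∀ x, Crit (vG F s χ e (δ, a)) e x → ∃ k, Idx (vG F s χ e (δ, a)) e x k := by
    intro x hx
    obtain ⟨y, -, h1, -⟩ := hloc1 x hx
    rcases h1 with ⟨-, h2, -⟩ | ⟨-, h2, -⟩
    · exact hnd0 x δ hx h2
    · exact hnd0 x (-δ) hx h2
  -- the levels
  have hzero : ∀ x, ⟪e, x⟫ ∈ L → vG F s χ e (δ, a) =ᶠ[𝓝 x] F := by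
    intro x hx
    filter_upwards [hsZ x hx] with y hy
    rw [vG, vu, hy.1, hy.2, mul_zero, mul_zero, add_zero, zero_smul, sub_zero]
  have hGlev : ∀ x, Crit (vG F s χ e (δ, a)) e x → ⟪e, x⟫ ∉ L := by
    intro x hx hxL
    exact hlev x (hx.congr (hzero x hxL)) hxL
  have hGs : ∀ c ∈ L, LiftS {x | vG F s χ e (δ, a) x = 0 ∧ ⟪e, x⟫ = c} := by
    intro c hc
    have h1 : {x | vG F s χ e (δ, a) x = 0 ∧ ⟪e, x⟫ = c} = {x | F x = 0 ∧ ⟪e, x⟫ = c} := by
      ext x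
      constructor
      · rintro ⟨h2, h3⟩
        have h3' : ⟪e, x⟫ = c := h3
        have h4 := (hzero x (by rw [h3']; exact hc)).self_of_nhds
        exact ⟨h4.symm.trans h2, h3⟩
      · rintro ⟨h2, h3⟩
        have h3' : ⟪e, x⟫ = c := h3
        have h4 := (hzero x (by rw [h3']; exact hc)).self_of_nhds
        exact ⟨h4.trans h2, h3⟩
    rw [h1]
    exact hsl c hc
  -- the order
  have hord : ∀ t, t ∉ L → OrdW (vG F s χ e (δ, a)) e L t ∨ OrdV (vG F s χ e (δ, a)) e L t := by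
    intro t ht
    by_cases htT : t ∈ T
    · left
      refine closV_ord hV hF he hs hχ hloc1 hδ0 hae hτi he' hea e1 hTs htT (fun y hy hi hyT hyA => ?_)
        (fun y hy hi hyT hyB => ?_) hη1' hsm
      · have h1 := closV_inward_fderiv he hi
        rw [hA] at hyA
        rcases hyA with ⟨-, h2⟩ | ⟨h2, -⟩
        · exact absurd h1 (not_lt.2 h2)
        · exact h2.2 hyT
      · have h1 := closV_inward_fderiv hne hi
        rw [map_neg] at h1
        rw [hB] at hyB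
        rcases hyB with ⟨-, h2⟩ | ⟨h2, -⟩
        · have h3 : fderiv ℝ F y e ≤ 0 := h2
          linarith
        · exact h2.2 hyT
    · right
      have htT2 : t ∈ T2 := by
        rw [hT2d]
        refine ⟨?_, htT⟩
        rcases h t ht with h1 | h1
        · exact absurd (by rw [hTd]; exact h1) htT
        · exact h1
      refine closV_ordV hV hG he ?_
      rw [← hGn]
      have hin : ∀ (u y : V), Inward (fun x => -F x) u y → Inward F (-u) y := by
        intro u y hy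
        refine CapClass_neg' ?_
        rw [neg_neg]
        exact hy
      have hyT' : ∀ y : V, ⟪e, y⟫ ∈ T2 → ⟪e, y⟫ ∉ T := by
        intro y hy
        rw [hT2d] at hy
        exact hy.2
      refine closV_ord hV hFn he hs hχ hloc2 hδ0 hae hτi he' hea e2 hT2s htT2
        (fun y hy hi hyT hyA => ?_) (fun y hy hi hyT hyB => ?_) hη2' (fun x hx => ?_)
      · have h1 := closV_inward_fderiv hne (hin _ _ hi)
        rw [map_neg] at h1
        rw [hA] at hyA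
        rcases hyA with ⟨h2, -⟩ | ⟨-, h2⟩
        · exact hyT' y hyT h2.2
        · have h3 : fderiv ℝ F y e ≤ 0 := h2
          linarith
      · have h0 := hin _ _ hi
        rw [neg_neg] at h0
        have h1 := closV_inward_fderiv he h0
        rw [hB] at hyB
        rcases hyB with ⟨h2, -⟩ | ⟨-, h2⟩
        · exact hyT' y hyT h2.2
        · exact absurd h1 (not_lt.2 h2)
      · rw [hGn] at hx
        exact hsm x (neg_eq_zero.1 hx)
  have hrd : Rd (vG F s χ e (δ, a)) :=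
    f3_dir hV hG (isBounded_iff_forall_norm_le.2 ⟨R + 1, hGb⟩) hGreg hGc hGl he hnd hL hGlev hGs hord
  exact Rd.of_hom hhom hrd

end Pool.Schoen
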