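import Pool.Agent.H.MP_6c077c_gt.F3.SlabDef
import Pool.Agent.H.MP_6c077c_gt.F2.Conf3

/-! Slab by slab form of the facing pair theorem for pencils of spheres. -/

set_option autoImplicit false

namespace Pool.Schoen

open Filter Set
open scoped Topology RealInnerProductSpace ContDiff

variable {V : Type*} [NormedAddCommGroup V] [InnerProductSpace ℝ V] [FiniteDimensional ℝ V]

omit [FiniteDimensional ℝ V] in
theorem inner_inv1 {w a y : V} (hy : y ≠ w) : ⟪a, y⟫ = ⟪a, w⟫ + cHt w a (inv1 w y) := by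
  have h0 : y - w ≠ 0 := sub_ne_zero.2 hy
  have h1 : ‖y - w‖ ^ 2 ≠ 0 := pow_ne_zero 2 (norm_ne_zero_iff.2 h0)
  have h2 : ⟪a, y⟫ = ⟪a, w⟫ + ⟪a, y - w⟫ := by
    rw [inner_sub_right]
    ring
  rw [h2, cHt, inv1_norm, inv1_sub, real_inner_smul_right]
  field_simp

/-- The facing condition in a slab for the pencil of spheres becomes the one for parallel
hyperplanes. -/
theorem noFaceSlab_of_conf {F G : V → ℝ} (hF : ContDiff ℝ ∞ F) (hG : ContDiff ℝ ∞ G) {w : V}
    (hz : ∀ y, G y = 0 → y ≠ w ∧ F (inv1 w y) = 0 ∧ G =ᶠ[𝓝 y] fun z => F (inv1 w z)) {a : V}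
    {L : Set ℝ} {t : ℝ} (h : NoFaceSlabC F w a L t) :
    NoFaceSlab G a ((fun c => ⟪a, w⟫ + c) '' L) (⟪a, w⟫ + t) := by
  have hcl : ∀ y ∈ closure (M21 G), G y = 0 := fun y hy =>
    closure_minimal (fun x hx => hx.1) (isClosed_eq hG.continuous continuous_const) hy
  have hmem : ∀ y ∈ closure (M21 G), inv1 w y ∈ closure (C21 F w) := by
    intro y hy
    have h1 := (hz y (hcl y hy)).1
    have h2 : ContinuousWithinAt (inv1 w) (M21 G) y :=
      (inv1_contDiffAt h1).continuousAt.continuousWithinAt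
    refine closure_mono ?_ (h2.mem_closure_image hy)
    rintro _ ⟨z, ⟨hz1, hz2, hz3⟩, rfl⟩
    obtain ⟨e1, e2, e3⟩ := hz z hz1
    exact ⟨e2, twoLess_of_twoNeg hF hG e1 e3 hz2, oneMore_of_onePos hF hG e1 e3 hz3⟩
  intro x hx y hy hnx hny hLx hLy
  obtain ⟨e1, e2, e3⟩ := hz x (hcl x hx)
  obtain ⟨f1, f2, f3⟩ := hz y (hcl y hy)
  rw [inner_inv1 e1, inner_inv1 f1]
  have := h _ (hmem x hx) _ (hmem y hy) (by rw [← conf_nrm hF hG e1 e3, hnx])
    (by rw [← conf_nrm hF hG f1 f3, hny])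
    (fun c hc => by
      have h3 := hLx _ ⟨c, hc, rfl⟩
      rw [inner_inv1 e1] at h3
      simpa using h3)
    (fun c hc => by
      have h3 := hLy _ ⟨c, hc, rfl⟩
      rw [inner_inv1 f1] at h3
      simpa using h3)
  linarith

omit [FiniteDimensional ℝ V] in
theorem liftS_inv1 {A B : Set V} {w : V} (hA : ∀ x ∈ A, x ≠ w) (hB : B = inv1 w '' A)
    (h : LiftS A) : LiftS B := by
  have hB1 : ∀ y ∈ B, y ≠ w ∧ inv1 w y ∈ A := by
    rw [hB]
    rintro _ ⟨x, hx, rfl⟩
    rw [inv1_inv1]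
    refine ⟨fun h0 => hA x hx ?_, hx⟩
    have h1 := congrArg (inv1 w) h0
    rwa [inv1_inv1, inv1_self] at h1
  intro u hu hu1
  have hmaps : ∀ x ∈ A, inv1 w x ∈ B := fun x hx => by
    rw [hB]
    exact mem_image_of_mem _ hx
  obtain ⟨v, hv, hv1⟩ := h (fun x => u (inv1 w x))
    (hu.comp (fun x hx => (inv1_contDiffAt (hA x hx)).continuousAt.continuousWithinAt) hmaps)
    (fun x hx => hu1 _ (hmaps x hx))
  refine ⟨fun y => v (inv1 w y), hv.comp
    (fun y hy => (inv1_contDiffAt (hB1 y hy).1).continuousAt.continuousWithinAt)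
    (fun y hy => (hB1 y hy).2), fun y hy => ?_⟩
  have := hv1 _ (hB1 y hy).2
  rwa [inv1_inv1] at this

theorem conf_crit {F G : V → ℝ} (hF : ContDiff ℝ ∞ F) (hG : ContDiff ℝ ∞ G)
    (hGreg : ∀ y, G y = 0 → gradient G y ≠ 0) {w a : V} (ha : ‖a‖ = 1)
    (hz : ∀ y, G y = 0 → y ≠ w ∧ F (inv1 w y) = 0 ∧ G =ᶠ[𝓝 y] fun z => F (inv1 w z)) {y : V}
    (hc : Crit G a y) : F (inv1 w y) = 0 ∧ (cNrm F w (inv1 w y) = a ∨ cNrm F w (inv1 w y) = -a) := by
  obtain ⟨e1, e2, e3⟩ := hz y hc.1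
  refine ⟨e2, ?_⟩
  rw [← conf_nrm hF hG e1 e3]
  have key : ∀ b : V, ‖b‖ = 1 → Inward G b y → nrm G y = -b := by
    rintro b hb ⟨-, l, hl, h⟩
    rw [nrm, h, norm_neg, norm_smul, hb, mul_one, Real.norm_of_nonneg hl.le, smul_neg, smul_smul,
      inv_mul_cancel₀ hl.ne', one_smul]
  rcases (crit_iff ha hGreg y).1 hc with h | h
  · exact Or.inr (key a ha h)
  · left
    rw [key (-a) (by rw [norm_neg, ha]) h, neg_neg]

/-- **Slab form for pencils of spheres**, from the form for parallel hyperplanes. -/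
theorem conf_slab_of (F : V → ℝ) (hF : ContDiff ℝ ∞ F)
    (hb : Bornology.IsBounded {x | F x ≤ 0}) (hreg : ∀ x, F x = 0 → gradient F x ≠ 0)
    (hMc : IsConnected {x | F x = 0}) (hMl : LiftS {x | F x = 0}) (w a : V) (hw : F w ≠ 0)
    (ha : ‖a‖ = 1) {L : Set ℝ} (hL : L.Finite)
    (hlev : ∀ x, F x = 0 → cNrm F w x = a ∨ cNrm F w x = -a → cHt w a x ∉ L)
    (hs : ∀ c ∈ L, LiftS {x | F x = 0 ∧ cHt w a x = c})
    (h : ∀ t, t ∉ L → NoFaceSlabC F w a L t ∨ NoFaceSlabC (fun x => -F x) w a L t)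
    (planar : ∀ (G : V → ℝ) (L : Set ℝ), ContDiff ℝ ∞ G → Bornology.IsBounded {x | G x = 0} →
      (∀ x, G x = 0 → gradient G x ≠ 0) → IsConnected {x | G x = 0} → LiftS {x | G x = 0} →
      L.Finite → (∀ x, Crit G a x → ⟪a, x⟫ ∉ L) →
      (∀ c ∈ L, LiftS {x | G x = 0 ∧ ⟪a, x⟫ = c}) →
      (∀ t, t ∉ L → NoFaceSlab G a L t ∨ NoFaceSlab (fun x => -G x) a L t) → Rd G) :
    Carries {x : V | F x = 0} (Metric.sphere (0 : V) 1) := by
  obtain ⟨G, hG, hGb, hGim, hGz⟩ := conf_exists hF hb hw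
  have ha0 : a ≠ 0 := by
    intro h0
    rw [h0, norm_zero] at ha
    exact zero_ne_one ha
  have hFw : ∀ x, F x = 0 → x ≠ w := by
    rintro x hx rfl
    exact hw hx
  have hGreg : ∀ y, G y = 0 → gradient G y ≠ 0 := by
    intro y hy
    obtain ⟨h1, h2, h3⟩ := hGz y hy
    rw [conf_gradient hF hG h1 h3]
    exact invD_ne (sub_ne_zero.2 h1) (hreg _ h2)
  have hGc : IsConnected {y | G y = 0} := by
    rw [hGim]
    exact hMc.image _ fun x hx => (inv1_contDiffAt (hFw x hx)).continuousAt.continuousWithinAt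
  have hGl : LiftS {y | G y = 0} := liftS_inv1 (fun x hx => hFw x hx) hGim hMl
  have hneg : ContDiff ℝ ∞ fun x => -F x := hF.neg
  have hGneg : ContDiff ℝ ∞ fun x => -G x := hG.neg
  have key : Rd G := by
    refine planar G ((fun c => ⟪a, w⟫ + c) '' L) hG hGb hGreg hGc hGl (hL.image _) ?_ ?_ ?_
    · rintro y hy ⟨c, hc, hyc⟩
      obtain ⟨e1, e2⟩ := conf_crit hF hG hGreg ha hGz hy
      have h1 := inner_inv1 (a := a) (hGz y hy.1).1
      have hyc : ⟪a, w⟫ + c = ⟪a, y⟫ := hyc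
      refine hlev _ e1 e2 ?_
      have h2 : cHt w a (inv1 w y) = c := by linarith
      rwa [h2]
    · rintro _ ⟨c, hc, rfl⟩
      refine liftS_inv1 (w := w) (fun x hx => hFw x hx.1) ?_ (hs c hc)
      ext y
      constructor
      · rintro ⟨h1, h2⟩
        obtain ⟨e1, e2, -⟩ := hGz y h1
        have h3 := inner_inv1 (a := a) e1
        have h2 : ⟪a, y⟫ = ⟪a, w⟫ + c := h2
        exact ⟨inv1 w y, ⟨e2, by linarith⟩, inv1_inv1 w y⟩
      · rintro ⟨x, ⟨h1, h2⟩, rfl⟩
        have h3 : G (inv1 w x) = 0 := by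
          have : inv1 w x ∈ {y | G y = 0} := by
            rw [hGim]
            exact mem_image_of_mem _ h1
          exact this
        refine ⟨h3, ?_⟩
        have h4 := inner_inv1 (a := a) (hGz _ h3).1
        rw [inv1_inv1, h2] at h4
        exact h4
    · intro t ht
      have ht' : t - ⟪a, w⟫ ∉ L := fun h0 => ht ⟨_, h0, by simp⟩
      have e : ⟪a, w⟫ + (t - ⟪a, w⟫) = t := by ring
      rcases h _ ht' with h1 | h1
      · left
        have := noFaceSlab_of_conf hF hG hGz h1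
        rwa [e] at this
      · right
        have := noFaceSlab_of_conf hneg hGneg (fun y hy => by
          obtain ⟨e1, e2, e3⟩ := hGz y (neg_eq_zero.1 hy)
          refine ⟨e1, neg_eq_zero.2 e2, ?_⟩
          filter_upwards [e3] with z hz
          rw [hz]) h1
        rwa [e] at this
  have hRd : Carries {y | G y = 0} (Metric.sphere (0 : V) 1) := by
    rcases key with h1 | h1
    · exact carries_of_isBall G hG h1
    · have h2 := carries_of_isBall (fun x => -G x) hGneg h1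
      have hset : {x | -G x = 0} = {x | G x = 0} := by
        ext x
        simp
      rwa [hset] at h2
  rw [hGim] at hRd
  exact carries_of_isBall F hF (isBall_of_inv1 hF hb hreg ⟨a, ha0⟩ hw hRd)

end Pool.Schoen
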