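import Pool.Agent.H.MP_6c077c_gt.F2.K2
import Pool.Agent.H.MP_6c077c_gt.F2.BaseN
import Pool.Agent.H.MP_6c077c_gt.helper58.ExtS

/-! Cuts at several spherical levels: the class of the induction. -/

set_option autoImplicit false

namespace Pool.Schoen

open Filter Set
open scoped Topology RealInnerProductSpace ContDiff

variable {V : Type*} [NormedAddCommGroup V] [InnerProductSpace ℝ V] [FiniteDimensional ℝ V]

/-- The class of the induction: the levels of `L` are regular and the level sets have the lifting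
property; the horizontal points with normal `-e` of index different from zero and the top index
satisfy `A` (height, index), those with normal `e` satisfy `B`; `S` are the markers of the level
sets. -/
structure K3 (f : V → ℝ) (e : V) (L : Set ℝ) (A B : ℝ → ℕ → Prop) (S : Finset V) : Prop where
  mo : Mo f e
  reg : ∀ x, Crit f e x → ⟪e, x⟫ ∉ L
  conn : IsConnected {x | f x ≤ 0}
  out : IsConnected {x | 0 ≤ f x}
  lift : LiftS {x | f x = 0}
  sl : ∀ c ∈ L, LiftS {x | f x = 0 ∧ ⟪e, x⟫ = c}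
  up : ∀ x, Inward f e x → ∀ k, Idx f e x k → k = 0 ∨ k + 1 = Module.finrank ℝ V ∨ A ⟪e, x⟫ k
  dn : ∀ x, Inward f (-e) x → ∀ k, Idx f e x k → k = 0 ∨ k + 1 = Module.finrank ℝ V ∨ B ⟪e, x⟫ k
  mark : Mark f e L S

variable {f g : V → ℝ} {e : V} {L : Set ℝ} {A B : ℝ → ℕ → Prop} {S : Finset V}

theorem K3.topE (h : K3 f e L A B S) : TopE f :=
  ⟨h.conn, h.out, Or.inl (BaseN_liftS h.mo.smooth.continuous h.lift).1⟩

/-- Invariance under a homotopy to a function with the same germs at the horizontal zeros and the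
same zeros at the levels. -/
theorem K3.hom (he : ‖e‖ = 1) (h : K3 f e L A B S) (hfg : Hom f g) (hg : ContDiff ℝ ∞ g)
    (hc : ∀ x, Crit g e x → g =ᶠ[𝓝 x] f) (hz : ∀ x, ⟪e, x⟫ ∈ L → (g x = 0 ↔ f x = 0)) :
    K3 g e L A B S := by
  have hmo : Mo g e := by
    refine h.mo.transfer hg hfg.good_right.bdd (fun x hx h0 => ?_) hc
    refine hfg.good_right.regular hg x hx ?_
    rw [gradient, LinearIsometryEquiv.map_eq_zero_iff] at h0
    exact h0
  have htop := h.topE.of_hom hfg h.mo.smooth hg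
  have hlift : LiftS {x | g x = 0} := by
    obtain ⟨φ, ψ, h1, h2, h3, h4, -, h6, -⟩ := hfg.carries h.mo.smooth hg
    have hD : Dif ψ φ := ⟨h2, h1, h4, h3⟩
    have h8 : {x | g x = 0} = {x | ψ x ∈ {y | f y = 0}} := by
      ext x
      constructor
      · intro hx
        have h9 : x ∈ φ '' {x | f x = 0} := by
          rw [h6]
          exact hx
        obtain ⟨y, hy, rfl⟩ := h9
        show ψ (φ y) ∈ {y | f y = 0}
        rw [h3]
        exact hy
      · intro hx
        have h9 : x ∈ {x | g x = 0} := by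
          rw [← h6]
          exact ⟨ψ x, hx, h4 x⟩
        exact h9
    rw [h8]
    exact hD.liftS h.lift
  refine ⟨hmo, fun x hx => h.reg x (hx.congr (hc x hx)), htop.conn, htop.out, hlift,
    fun c hcL => ?_, fun x hx k hi => ?_, fun x hx k hi => ?_, h.mark.congr hz⟩
  · have h1 : {x | g x = 0 ∧ ⟪e, x⟫ = c} = {x | f x = 0 ∧ ⟪e, x⟫ = c} := by
      ext x
      exact and_congr_left fun hx => hz x (by rw [hx]; exact hcL)
    rw [h1]
    exact h.sl c hcL
  · have h1 := hc x (hx.crit he)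
    exact h.up x (hx.congr' h1) k (hi.congr' h1)
  · have h1 := hc x (hx.crit_neg he)
    exact h.dn x (hx.congr' h1) k (hi.congr' h1)

/-- Invariance under diffeomorphisms of the hyperplane. -/
theorem K3.comp_dif [DecidableEq V] (he : ‖e‖ = 1) (h : K3 f e L A B S)
    {φ ψ : (ℝ ∙ e)ᗮ → (ℝ ∙ e)ᗮ} (hφ : Dif φ ψ) :
    K3 (fun x => f (extH e φ x)) e L A B (S.image (extH e ψ)) := by
  have hΦ : Dif (extH e φ) (extH e ψ) := hφ.extH he
  have hh : ∀ x, ⟪e, extH e φ x⟫ = ⟪e, x⟫ := extH_height he φ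
  have hh' : ∀ x, ⟪e, extH e ψ x⟫ = ⟪e, x⟫ := extH_height he ψ
  have hs : ContDiff ℝ ∞ fun x => f (extH e φ x) := h.mo.smooth.comp hΦ.smooth
  have hcr : ∀ x, Crit (fun y => f (extH e φ y)) e x ↔ Crit f e (extH e φ x) := by
    intro x
    constructor
    · intro hx
      obtain ⟨l, hl⟩ := hx.vert he
      exact crit_of_vert hx.1 ((gradient_comp_height h.mo.smooth hΦ hh x l).1 hl)
    · intro hx
      obtain ⟨l, hl⟩ := hx.vert he
      exact crit_of_vert (f := fun y => f (extH e φ y)) hx.1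
        ((gradient_comp_height h.mo.smooth hΦ hh x l).2 hl)
  have hid : ∀ x, Crit (fun y => f (extH e φ y)) e x → ∀ k, Idx (fun y => f (extH e φ y)) e x k →
      Idx f e (extH e φ x) k := by
    intro x hx k hk
    obtain ⟨l, hl⟩ := hx.vert he
    have h1 := idx_comp_height hs hΦ.symm hh' (extH e φ x) l (k := k) (by
      simp only [hΦ.left]
      exact hl) (by simpa only [hΦ.left] using hk)
    simpa only [hΦ.right] using h1
  refine ⟨⟨hs, hΦ.bounded h.mo.bdd, fun x hx => hΦ.reg h.mo.smooth (h.mo.reg _ hx),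
    fun x hx => ?_⟩, fun x hx => ?_, hΦ.isConnected h.conn, hΦ.isConnected h.out,
    hΦ.liftS h.lift, fun c hcL => ?_, fun x hx k hi => ?_, fun x hx k hi => ?_,
    h.mark.transport hΦ.symm.continuous hΦ.left hΦ.right hh⟩
  · obtain ⟨k, hk⟩ := h.mo.nd _ ((hcr x).1 hx)
    obtain ⟨l, hl⟩ := ((hcr x).1 hx).vert he
    exact ⟨k, idx_comp_height h.mo.smooth hΦ hh x l hl hk⟩
  · rw [← hh]
    exact h.reg _ ((hcr x).1 hx)
  · have h1 : {x | f (extH e φ x) = 0 ∧ ⟪e, x⟫ = c} =
        {x | extH e φ x ∈ {y | f y = 0 ∧ ⟪e, y⟫ = c}} := by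
      ext x
      show f (extH e φ x) = 0 ∧ ⟪e, x⟫ = c ↔ f (extH e φ x) = 0 ∧ ⟪e, extH e φ x⟫ = c
      rw [hh]
    rw [h1]
    exact hΦ.liftS (h.sl c hcL)
  · rw [← hh]
    exact h.up _ ((inward_comp_height h.mo.smooth hΦ hh x).1 hx) k (hid x (hx.crit he) k hi)
  · rw [← hh]
    exact h.dn _ ((inward_comp_height' h.mo.smooth hΦ hh x).1 hx) k (hid x (hx.crit_neg he) k hi)

/-- The slice of the body at a level of `L` has the lifting property. -/
theorem K3.slice (he : ‖e‖ = 1) (h : K3 f e L A B S) {c : ℝ} (hc : c ∈ L) :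
    LiftS {w : (ℝ ∙ e)ᗮ | f ((w : V) + c • e) ≤ 0} := by
  have h1 : LiftS {w : (ℝ ∙ e)ᗮ | f ((w : V) + c • e) = 0} := by
    refine (h.sl c hc).of_maps (φ := hpr e) (ψ := fun y : (ℝ ∙ e)ᗮ => (y : V) + c • e) ?_ ?_ ?_ ?_ ?_
    · exact (hprL e).continuous.continuousOn
    · exact Continuous.continuousOn (by fun_prop)
    · rintro x ⟨hx, hxc⟩
      have h4 : (hpr e x : V) + c • e = x := by
        rw [← hxc]
        exact hpr_add he x
      show f ((hpr e x : V) + c • e) = 0
      rw [h4, hx]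
    · intro y hy
      exact ⟨hy, inner_hpr he y c⟩
    · intro y _
      exact hpr_coe he y c
  exact (BaseN_liftS (h.mo.smooth.continuous.comp (by fun_prop)) h1).1

end Pool.Schoen
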