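import Pool.Agent.H.MP_6c077c_gt.F3.K3
import Pool.Agent.H.MP_6c077c_gt.F2.StopN
import Pool.Agent.H.MP_6c077c_gt.F2.SliceP
import Pool.Agent.H.MP_6c077c_gt.Al.PieceC
import Pool.Agent.H.MP_6c077c_gt.Al.StepN

/-! Cuts at several spherical levels: the pieces of the cut are in the class. -/

set_option autoImplicit false

namespace Pool.Schoen

open Filter Set
open scoped Topology RealInnerProductSpace ContDiff

/-- A closed set with a closed complement in `X` inherits the lifting property. -/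
theorem LiftS.clopen {Y : Type*} [TopologicalSpace Y] [NormalSpace Y] {K X : Set Y}
    (hK : IsClosed K) (hKX : K ⊆ X) (hX : IsClosed (X \ K)) (h : LiftS X) : LiftS K := by
  refine LiftS.of_union hK hX ?_ ?_
  · rw [Set.union_sdiff_cancel hKX]
    exact h
  · rw [Set.inter_sdiff_self]
    exact liftS_empty

variable {V : Type*} [NormedAddCommGroup V] [InnerProductSpace ℝ V] [FiniteDimensional ℝ V]
variable {f : V → ℝ} {e : V} {c ζ R d : ℝ} {S : Finset V} {A C : V → ℝ} {L : Set ℝ}
  {P Q : ℝ → ℕ → Prop}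

/-- The piece of a cut is in the class, with fewer markers. -/
theorem k3_piece (hn : 4 ≤ Module.finrank ℝ V) (h : K3 f e L P Q S) (hc : c ∈ L)
    (hL : ∀ c' ∈ L, c' ≠ c → ζ ≤ |c' - c|) {s : ℝ} (hs : s = 1 ∨ s = -1)
    (hcy : CylN (fun x => s * f x) e (c • e) ζ R) (hd : 0 < d) (hdζ : 2 * d ≤ ζ)
    (hA : ContDiff ℝ ∞ A)
    (hAs : ∀ x, A x = 0 → A =ᶠ[𝓝 x] scut (fun x => s * f x) e (c • e) d R)
    (hcA : IsConnected {x | A x ≤ 0})
    (hcA' : IsConnected {x | 0 ≤ A x}) (hlA : LiftS {x | A x = 0}) :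
    ∃ S' : Finset V, S'.card < S.card ∧ K3 (fun x => s * A x) e L P Q S' := by
  classical
  have he := hcy.he
  have hR := hcy.hR
  have hss : s * s = 1 := by rcases hs with rfl | rfl <;> norm_num
  have hs0 : s ≠ 0 := by rcases hs with rfl | rfl <;> norm_num
  have hfs : ContDiff ℝ ∞ fun x => s * f x := contDiff_const.mul h.mo.smooth
  have hgr : ∀ {g : V → ℝ} (_ : ContDiff ℝ ∞ g) (x : V),
      gradient (fun y => s * g y) x = s • gradient g x := by
    intro g hg x
    unfold gradient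
    rw [fderiv_const_mul ((hg.differentiable (by simp)) x), map_smul]
  have hfreg : ∀ x, s * f x = 0 → gradient (fun y => s * f y) x ≠ 0 := by
    intro x hx
    rw [hgr h.mo.smooth]
    exact smul_ne_zero hs0 (h.mo.reg x ((mul_eq_zero.1 hx).resolve_left hs0))
  have hz : ∀ x, A x = 0 → scut (fun x => s * f x) e (c • e) d R x = 0 := fun x hx => by
    rw [← (hAs x hx).self_of_nhds, hx]
  have hGz : ∀ x, s * A x = 0 ↔ A x = 0 := fun x => by
    rw [mul_eq_zero]
    exact or_iff_right hs0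
  have hcrA : ∀ x, Crit (fun y => s * A y) e x → Crit A e x := by
    intro x hx
    rcases hs with rfl | rfl
    · simpa using hx
    · have h1 : (fun y => (-1 : ℝ) * A y) = fun y => -A y := by
        funext y
        ring
      rw [h1] at hx
      exact crit_neg.1 hx
  have hce : ⟪e, c • e⟫ = c := by
    rw [real_inner_smul_right, real_inner_self_eq_norm_sq, he]
    ring
  -- the critical zeros
  have hcr : ∀ x, Crit (fun y => s * A y) e x →
      (Crit f e x ∧ (fun y => s * A y) =ᶠ[𝓝 x] f) ∨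
        (⟪e, x⟫ ∉ L ∧ ∃ k, (k = 0 ∨ k + 1 = Module.finrank ℝ V) ∧
          Idx (fun y => s * A y) e x k) := by
    intro x hx
    have h1 := hcrA x hx
    have h2 := hAs x h1.1
    rcases hcy.scut_crit hd hdζ hfreg (h1.congr h2) with ⟨h3, h4⟩ | ⟨h3, h4⟩
    · left
      have h5 : (fun y => s * A y) =ᶠ[𝓝 x] f := by
        filter_upwards [h2, h4] with y hy1 hy2
        rw [hy1, hy2, ← mul_assoc, hss, one_mul]
      exact ⟨hx.congr h5, h5⟩
    · right
      rw [hce] at h3
      refine ⟨fun hxL => ?_, ?_⟩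
      · have h6 : |⟪e, x⟫ - c| = d := by
          rcases h3 with h3 | h3
          · rw [h3, add_sub_cancel_left, abs_of_pos hd]
          · rw [h3, sub_sub_cancel_left, abs_neg, abs_of_pos hd]
        have h7 : ⟪e, x⟫ ≠ c := by
          intro h7
          rw [h7, sub_self, abs_zero] at h6
          exact hd.ne h6
        have := hL _ hxL h7
        linarith
      · have h5 : Idx A e x 0 := h4.congr' h2.symm
        rcases hs with rfl | rfl
        · refine ⟨0, Or.inl rfl, ?_⟩
          simpa using h5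
        · obtain ⟨j, hj, h6⟩ := BaseN_idx_neg hA he h5
          refine ⟨j, Or.inr (by omega), ?_⟩
          have h7 : (fun y => (-1 : ℝ) * A y) = fun y => -A y := by
            funext y
            ring
          rw [h7]
          exact h6
  have hmo : Mo (fun y => s * A y) e := by
    refine ⟨contDiff_const.mul hA, ?_, ?_, ?_⟩
    · refine (h.mo.bdd.union (cylS_compact he (c • e) (-ζ) ζ).isBounded).subset ?_
      intro x hx
      rcases hcy.scut_zero hd hdζ (hz x ((hGz x).1 hx)) with ⟨-, h2, -⟩ | ⟨h1, h2, -⟩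
      · exact Or.inl ((mul_eq_zero.1 h2).resolve_left hs0)
      · have h3 := abs_lt.1 h1
        exact Or.inr ⟨h3.1.le, h3.2.le, h2⟩
    · intro x hx
      have hx' := (hGz x).1 hx
      rw [hgr hA]
      refine smul_ne_zero hs0 ?_
      have h1 : gradient A x = gradient (scut (fun x => s * f x) e (c • e) d R) x := by
        unfold gradient
        rw [(hAs x hx').fderiv_eq]
      rw [h1]
      exact hcy.scut_reg hd hdζ hfreg x (hz x hx')
    · intro x hx
      rcases hcr x hx with ⟨h1, h2⟩ | ⟨-, k, -, h2⟩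
      · obtain ⟨k, hk⟩ := h.mo.nd x h1
        exact ⟨k, hk.congr' h2.symm⟩
      · exact ⟨k, h2⟩
  -- zeros at the levels
  have hlev : ∀ x, ⟪e, x⟫ ∈ L → s * A x = 0 → f x = 0 ∧ (fun y => s * A y) =ᶠ[𝓝 x] f := by
    intro x hxL hx
    have hx' := (hGz x).1 hx
    obtain ⟨h1, h2⟩ := hcy.scut_level hd hdζ (fun h4 => by
      rw [hce] at h4 ⊢
      exact hL _ hxL h4) (hz x hx')
    have h3 : (fun y => s * A y) =ᶠ[𝓝 x] f := by
      filter_upwards [hAs x hx', h2] with y hy1 hy2
      rw [hy1, hy2, ← mul_assoc, hss, one_mul]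
    refine ⟨(mul_eq_zero.1 h1).resolve_left hs0, h3⟩
  refine ⟨S.filter fun x => s * A x = 0, ?_, hmo, ?_, ?_, ?_, ?_, ?_, ?_, ?_, ?_⟩
  · -- the lost marker
    have hcont1 : Continuous fun x : V => ⟪e, x - c • e⟫ := by fun_prop
    have hcont2 : Continuous fun x : V => ‖orth e (x - c • e)‖ := by
      unfold orth
      fun_prop
    refine h.mark.card_lt hc (K := rimS e (c • e) 0) ?_ ?_ ?_ ?_ ?_
    · have hr := cap_rank he
      have : Nontrivial (ℝ ∙ e)ᗮ := Module.nontrivial_of_finrank_pos (R := ℝ) (by omega)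
      obtain ⟨u, hu⟩ := exists_norm_eq (ℝ ∙ e)ᗮ zero_le_one
      obtain ⟨e1, e2, -⟩ := slice_coords he c u
      exact ⟨(u : V) + c • e, e1, by rw [e2]; exact hu⟩
    · exact (isClosed_eq hcont1 continuous_const).inter (isClosed_eq hcont2 continuous_const)
    · rintro x ⟨h1, h2⟩
      refine ⟨?_, ?_⟩
      · have h3 := hcy.hf x (by rw [h1, abs_zero]; exact hcy.hζ) (by rw [h2]; exact hR)
        rw [h2] at h3
        have h4 : s * f x = 0 := by
          rw [h3]
          norm_num
        exact (mul_eq_zero.1 h4).resolve_left hs0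
      · rw [inner_sub_right, hce] at h1
        linarith
    · refine ⟨{x | |⟪e, x - c • e⟫| < ζ} ∩ {x | ‖orth e (x - c • e)‖ < R},
        (isOpen_lt hcont1.abs continuous_const).inter (isOpen_lt hcont2 continuous_const), ?_, ?_⟩
      · rintro x ⟨h1, h2⟩
        refine ⟨?_, ?_⟩
        · show |⟪e, x - c • e⟫| < ζ
          rw [h1, abs_zero]
          exact hcy.hζ
        · show ‖orth e (x - c • e)‖ < R
          rw [h2]
          exact hR
      · rintro x ⟨h1, h2⟩ h3 h4
        refine ⟨?_, ?_⟩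
        · rw [inner_sub_right, h4, hce, sub_self]
        · have h5 := hcy.hf x h1 h2
          rw [h3, mul_zero] at h5
          have h6 := norm_nonneg (orth e (x - c • e))
          nlinarith
    · rintro x ⟨h1, h2⟩ h3
      have h4 := hcy.scut_mid (d := d) h1 (by rw [h2]; exact hR)
      have h5 := hz x ((hGz x).1 h3)
      linarith
  · intro x hx
    rcases hcr x hx with ⟨h1, -⟩ | ⟨h1, -⟩
    · exact h.reg x h1
    · exact h1
  · rcases hs with rfl | rfl
    · simpa using hcA
    · have h1 : {x | (-1 : ℝ) * A x ≤ 0} = {x | 0 ≤ A x} := by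
        ext x
        show (-1 : ℝ) * A x ≤ 0 ↔ 0 ≤ A x
        constructor <;> intro h2 <;> linarith
      rw [h1]
      exact hcA'
  · rcases hs with rfl | rfl
    · simpa using hcA'
    · have h1 : {x | 0 ≤ (-1 : ℝ) * A x} = {x | A x ≤ 0} := by
        ext x
        show 0 ≤ (-1 : ℝ) * A x ↔ A x ≤ 0
        constructor <;> intro h2 <;> linarith
      rw [h1]
      exact hcA
  · have h1 : {x | s * A x = 0} = {x | A x = 0} := by
      ext x
      exact hGz x
    rw [h1]
    exact hlA
  · -- the level sets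
    intro c' hc'
    have k1 : IsClosed {x : V | s * A x = 0 ∧ ⟪e, x⟫ = c'} :=
      (isClosed_eq (contDiff_const.mul hA).continuous continuous_const).inter
        (isClosed_eq (by fun_prop) continuous_const)
    have k2 : IsClosed {x : V | f x = 0 ∧ ⟪e, x⟫ = c'} :=
      (isClosed_eq h.mo.smooth.continuous continuous_const).inter
        (isClosed_eq (by fun_prop) continuous_const)
    refine LiftS.clopen k1 (fun x hx => ?_) ?_ (h.sl c' hc')
    · exact ⟨(hlev x (by rw [hx.2]; exact hc') hx.1).1, hx.2⟩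
    · obtain ⟨U, hU⟩ : ∃ U : Set V, U = {x | (fun y => s * A y) =ᶠ[𝓝 x] f} := ⟨_, rfl⟩
      have hUo : IsOpen U := by
        rw [hU]
        exact isOpen_setOfPred_eventually_nhds
      have h1 : {x : V | f x = 0 ∧ ⟪e, x⟫ = c'} \ {x : V | s * A x = 0 ∧ ⟪e, x⟫ = c'} =
          {x : V | f x = 0 ∧ ⟪e, x⟫ = c'} ∩ Uᶜ := by
        ext x
        constructor
        · rintro ⟨⟨h2, h3⟩, h4⟩
          refine ⟨⟨h2, h3⟩, fun h5 => h4 ⟨?_, h3⟩⟩
          rw [hU] at h5
          have h6 : s * A x = f x := h5.self_of_nhds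
          rw [h6, h2]
        · rintro ⟨⟨h2, h3⟩, h4⟩
          refine ⟨⟨h2, h3⟩, fun h5 => h4 ?_⟩
          rw [hU]
          exact (hlev x (by rw [h3]; exact hc') h5.1).2
      rw [h1]
      exact k2.inter hUo.isClosed_compl
  · intro x hx k hi
    rcases hcr x (hx.crit he) with ⟨-, h2⟩ | ⟨-, j, hj, h2⟩
    · exact h.up x (hx.congr' h2) k (hi.congr' h2)
    · have h3 := Cy.Idx.unique h2 hi
      rw [← h3]
      exact hj.imp id Or.inl
  · intro x hx k hi
    rcases hcr x (hx.crit_neg he) with ⟨-, h2⟩ | ⟨-, j, hj, h2⟩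
    · exact h.dn x (hx.congr' h2) k (hi.congr' h2)
    · have h3 := Cy.Idx.unique h2 hi
      rw [← h3]
      exact hj.imp id Or.inl
  · -- markers
    refine h.mark.part fun x hxL hx => ?_
    obtain ⟨-, h3⟩ := hlev x hxL hx
    obtain ⟨O, hO1, hO2, hO3⟩ := mem_nhds_iff.1 h3
    refine ⟨O, hO2, hO3, fun y hy _ => ?_⟩
    have h4 : s * A y = f y := hO1 hy
    rw [h4]

/-- The two pieces of a cut. -/
theorem k3_pieces (hn4 : 4 ≤ Module.finrank ℝ V) (h : K3 f e L P Q S) (hc : c ∈ L)
    (hL : ∀ c' ∈ L, c' ≠ c → ζ ≤ |c' - c|) {s : ℝ} (hs : s = 1 ∨ s = -1)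
    (hcy : CylN (fun x => s * f x) e (c • e) ζ R) :
    ∃ (gA gC : V → ℝ) (SA SC : Finset V), SA.card < S.card ∧ SC.card < S.card ∧
      K3 gA e L P Q SA ∧ K3 gC e L P Q SC ∧ (Rd gA → Rd gC → Rd f) := by
  have hs0 : s ≠ 0 := by rcases hs with rfl | rfl <;> norm_num
  have hfs : ContDiff ℝ ∞ fun x => s * f x := contDiff_const.mul h.mo.smooth
  have hd : 0 < ζ / 2 := by have := hcy.hζ; positivity
  have hdζ : 2 * (ζ / 2) ≤ ζ := by linarith
  -- the two signs
  have hRs : ∀ g : V → ℝ, Rd (fun x => s * g x) ↔ Rd g := by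
    intro g
    rcases hs with rfl | rfl
    · simp
    · have h1 : (fun y => (-1 : ℝ) * g y) = fun y => -g y := by
        funext y
        ring
      rw [h1]
      constructor
      · intro h2
        have h3 := h2.neg
        simpa using h3
      · exact fun h2 => h2.neg
  have hc0 : IsConnected {x | s * f x ≤ 0} ∧ IsConnected {x | 0 ≤ s * f x} ∧
      LiftS {x | s * f x ≤ 0} ∧ LiftS {x | 0 ≤ s * f x} := by
    obtain ⟨l1, l2⟩ := BaseN_liftS h.mo.smooth.continuous h.lift
    rcases hs with rfl | rfl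
    · simp only [one_mul]
      exact ⟨h.conn, h.out, l1, l2⟩
    · have h1 : {x | (-1 : ℝ) * f x ≤ 0} = {x | 0 ≤ f x} := by
        ext x
        show (-1 : ℝ) * f x ≤ 0 ↔ 0 ≤ f x
        constructor <;> intro h2 <;> linarith
      have h2 : {x | 0 ≤ (-1 : ℝ) * f x} = {x | f x ≤ 0} := by
        ext x
        show 0 ≤ (-1 : ℝ) * f x ↔ f x ≤ 0
        constructor <;> intro h2 <;> linarith
      rw [h1, h2]
      exact ⟨h.out, h.conn, l2, l1⟩
  obtain ⟨c1, c2, l1, l2⟩ := hc0
  have hfreg : ∀ x, s * f x = 0 → gradient (fun y => s * f y) x ≠ 0 := by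
    intro x hx
    have hgr : gradient (fun y => s * f y) x = s • gradient f x := by
      unfold gradient
      rw [fderiv_const_mul ((h.mo.smooth.differentiable (by simp)) x), map_smul]
    rw [hgr]
    exact smul_ne_zero hs0 (h.mo.reg x ((mul_eq_zero.1 hx).resolve_left hs0))
  have hzs : {x | s * f x = 0} = {x | f x = 0} := by
    ext x
    show s * f x = 0 ↔ f x = 0
    rw [mul_eq_zero]
    exact or_iff_right hs0
  have hg : Good fun x => s * f x := by
    refine good_of_regular hfs (by rw [hzs]; exact h.mo.bdd) fun x hx h1 => hfreg x hx ?_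
    rw [gradient, h1, map_zero]
  obtain ⟨A, C, hA, hC, hAs, hCs, hun, hdis, hpA, hpC, a1, a2, b1, b2, -, -, -, -, hR⟩ :=
    hcy.stopN (by omega) hfs hg c1 c2 l1 l2 hd hdζ
  have hlz : LiftS {x | s * f x = 0} := by
    rw [hzs]
    exact h.lift
  have lA : LiftS {x | A x = 0} := hcy.zero_lift hn4 hfs hfreg hlz hd hdζ hA.continuous
    hC.continuous hAs hCs hun hdis hpA hpC
  have lC : LiftS {x | C x = 0} := hcy.zero_lift' hn4 hfs hfreg hlz hd hdζ hA.continuous
    hC.continuous hAs hCs hun hdis hpA hpC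
  obtain ⟨SA, hSA, kA⟩ := k3_piece hn4 h hc hL hs hcy hd hdζ hA hAs a1 a2 lA
  obtain ⟨SC, hSC, kC⟩ := k3_piece hn4 h hc hL hs hcy hd hdζ hC hCs b1 b2 lC
  refine ⟨_, _, SA, SC, hSA, hSC, kA, kC, fun r1 r2 => ?_⟩
  exact (hRs f).1 (hR ((hRs A).1 r1) ((hRs C).1 r2))

end Pool.Schoen
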