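import Pool.Agent.H.MP_6c077c_gt.F3.StepM
import Pool.Agent.H.MP_6c077c_gt.F3.StepP
import Pool.Agent.H.MP_6c077c_gt.F2.MainK

/-! Cuts at several spherical levels: the induction. -/

set_option autoImplicit false

namespace Pool.Schoen

open Filter Set
open scoped Topology RealInnerProductSpace ContDiff

variable {V : Type*} [NormedAddCommGroup V] [InnerProductSpace ℝ V] [FiniteDimensional ℝ V]

/-- Induction on the number of markers: the pieces which miss all levels are the base case. -/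
theorem k3_rd (hV : Module.finrank ℝ V = 4) {e : V} (he : ‖e‖ = 1) {L : Set ℝ} (hL : L.Finite)
    {A B : ℝ → ℕ → Prop}
    (base : ∀ (f : V → ℝ) (S : Finset V), K3 f e L A B S → (∀ x, f x = 0 → ⟪e, x⟫ ∉ L) → Rd f) :
    ∀ (n : ℕ) (S : Finset V) (f : V → ℝ), S.card = n → K3 f e L A B S → Rd f := by
  have he0 : e ≠ 0 := by
    intro h0
    rw [h0, norm_zero] at he
    exact zero_ne_one he
  have : Fact (Module.finrank ℝ V = 3 + 1) := ⟨hV⟩
  have hfr : Module.finrank ℝ (ℝ ∙ e)ᗮ = 3 := Submodule.finrank_orthogonal_span_singleton he0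
  intro n
  induction n using Nat.strong_induction_on with
  | _ n ih =>
    intro S f hn h
    by_cases hne : ∃ x, f x = 0 ∧ ⟪e, x⟫ ∈ L
    · obtain ⟨x, hx, hxL⟩ := hne
      obtain ⟨c, hc⟩ : ∃ c, c = ⟪e, x⟫ := ⟨_, rfl⟩
      have hcL : c ∈ L := by
        rw [hc]
        exact hxL
      obtain ⟨h1, h2, h3⟩ := slice_reg he h.mo (c := c) fun y hy hyc => h.reg y hy (by
        rw [hyc]
        exact hcL)
      obtain ⟨s, hs, k, hk, hkb, hk1, hk2, -, -⟩ := leaf_ball hfr h1 h2 h3 (by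
        refine ⟨hpr e x, ?_⟩
        have h4 : (hpr e x : V) + c • e = x := by
          rw [hc]
          exact hpr_add he x
        rw [h4, hx]) (h.slice he hcL)
      obtain ⟨G, ζ, R, S', hR, hS', hG, hcy, hζ⟩ := step3_m he hL h hcL hs hk hkb hk1 hk2
      obtain ⟨gA, gC, SA, SC, hSA, hSC, hA, hC, hRR⟩ := k3_pieces hV.ge hG hcL hζ hs hcy
      exact hR (hRR (ih SA.card (by omega) SA gA rfl hA) (ih SC.card (by omega) SC gC rfl hC))
    · push Not at hne
      exact base f S h hne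

/-- The start of the induction. -/
theorem k3_start {F : V → ℝ} (hF : ContDiff ℝ ∞ F) (hb0 : Bornology.IsBounded {x | F x = 0})
    (hreg : ∀ x, F x = 0 → gradient F x ≠ 0) (hMc : IsConnected {x | F x = 0})
    (hMl : LiftS {x | F x = 0}) {e : V} (he : ‖e‖ = 1)
    (hnd : ∀ x, Crit F e x → ∃ k, Idx F e x k) {L : Set ℝ} (hL : L.Finite)
    (hc : ∀ x, Crit F e x → ⟪e, x⟫ ∉ L) (hs : ∀ c ∈ L, LiftS {x | F x = 0 ∧ ⟪e, x⟫ = c})
    {A B : ℝ → ℕ → Prop}
    (up : ∀ x, Inward F e x → ∀ k, Idx F e x k → k = 0 ∨ k + 1 = Module.finrank ℝ V ∨ A ⟪e, x⟫ k)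
    (dn : ∀ x, Inward F (-e) x → ∀ k, Idx F e x k →
      k = 0 ∨ k + 1 = Module.finrank ℝ V ∨ B ⟪e, x⟫ k) : ∃ S, K3 F e L A B S := by
  have hmo : Mo F e := ⟨hF, hb0, hreg, hnd⟩
  obtain ⟨hc1, hc2⟩ := sides_conn hF.continuous hMc
  obtain ⟨S, hS⟩ := mark_exists he hF hb0 hL (by
    intro x hx hxc l hl
    exact hc x (crit_of_vert hx hl) hxc)
  exact ⟨S, hmo, hc, hc1, hc2, hMl, hs, up, dn, hS⟩

end Pool.Schoen
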