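import Pool.Agent.H.MP_6c077c_gt.Al.Mark
import Pool.Agent.H.MP_6c077c_gt.Al.Start
import Pool.Agent.H.MP_6c077c_gt.IxB.LiftSphere

/-! Cuts at several levels: if all components of a regular level surface are spheres, every map of the
level surface to the circle lifts. -/

set_option autoImplicit false

namespace Pool.Schoen

open Filter Set
open scoped Topology RealInnerProductSpace ContDiff

/-- A locally connected set all of whose components have the lifting property has it. -/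
theorem liftS_of_components {Y : Type*} [TopologicalSpace Y] {Z : Set Y}
    (hloc : ∀ x ∈ Z, ∃ U : Set Y, IsOpen U ∧ x ∈ U ∧ IsPreconnected (U ∩ Z))
    (h : ∀ x ∈ Z, LiftS (connectedComponentIn Z x)) : LiftS Z := by
  classical
  intro u hu hn
  obtain ⟨W, hW⟩ : ∃ W : Set Y → Y → ℝ, ∀ x ∈ Z, ContinuousOn (W (connectedComponentIn Z x))
      (connectedComponentIn Z x) ∧ ∀ y ∈ connectedComponentIn Z x,
        u y = Complex.exp (W (connectedComponentIn Z x) y * Complex.I) := by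
    have h1 : ∀ C : Set Y, ∃ v : Y → ℝ, (∃ x ∈ Z, C = connectedComponentIn Z x) →
        ContinuousOn v C ∧ ∀ y ∈ C, u y = Complex.exp (v y * Complex.I) := by
      intro C
      by_cases hC : ∃ x ∈ Z, C = connectedComponentIn Z x
      · obtain ⟨x, hx, rfl⟩ := hC
        have hsub := connectedComponentIn_subset Z x
        obtain ⟨v, hv⟩ := h x hx u (hu.mono hsub) (fun y hy => hn y (hsub hy))
        exact ⟨v, fun _ => hv⟩
      · exact ⟨fun _ => 0, fun h2 => absurd h2 hC⟩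
    choose W hW using h1
    exact ⟨W, fun x hx => hW _ ⟨x, hx, rfl⟩⟩
  refine ⟨fun y => W (connectedComponentIn Z y) y, ?_, fun y hy =>
    (hW y hy).2 y (mem_connectedComponentIn hy)⟩
  intro y hy
  obtain ⟨U, hU, hyU, hUc⟩ := hloc y hy
  have hsub : U ∩ Z ⊆ connectedComponentIn Z y :=
    hUc.subset_connectedComponentIn ⟨hyU, hy⟩ inter_subset_right
  have h1 : ContinuousWithinAt (W (connectedComponentIn Z y)) (U ∩ Z) y :=
    ((hW y hy).1 y (mem_connectedComponentIn hy)).mono hsub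
  have h2 : ContinuousWithinAt (fun z => W (connectedComponentIn Z z) z) (U ∩ Z) y := by
    refine h1.congr (fun z hz => ?_) rfl
    rw [connectedComponentIn_eq (hsub hz)]
  refine h2.mono_of_mem_nhdsWithin ?_
  exact inter_mem (mem_nhdsWithin_of_mem_nhds (hU.mem_nhds hyU)) self_mem_nhdsWithin

variable {V : Type*} [NormedAddCommGroup V] [InnerProductSpace ℝ V] [FiniteDimensional ℝ V]

/-- A regular level surface is locally connected. -/
theorem level_loc {F : V → ℝ} (hF : ContDiff ℝ ∞ F) {e : V} (he : ‖e‖ = 1) {c : ℝ}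
    (hc : ∀ x, Crit F e x → ⟪e, x⟫ ≠ c) :
    ∀ x ∈ {x | F x = 0 ∧ ⟪e, x⟫ = c}, ∃ U : Set V, IsOpen U ∧ x ∈ U ∧
      IsPreconnected (U ∩ {x | F x = 0 ∧ ⟪e, x⟫ = c}) := by
  rintro x ⟨hx, hxc⟩
  have h1 : HasStrictFDerivAt F (fderiv ℝ F x) x :=
    hF.contDiffAt.hasStrictFDerivAt (by simp)
  have h2 : HasStrictFDerivAt (fun y : V => ⟪e, y⟫) (innerSL ℝ e) x :=
    (innerSL ℝ e).hasStrictFDerivAt
  have hs : ((fderiv ℝ F x).prod (innerSL ℝ e)).range = ⊤ := by
    rw [LinearMap.range_eq_top]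
    obtain ⟨v, hv1, hv2⟩ : ∃ v : V, ⟪e, v⟫ = 0 ∧ fderiv ℝ F x v ≠ 0 := by
      by_contra hcon
      push Not at hcon
      refine hc x ⟨hx, fun w hw => hcon w ?_⟩ hxc
      rw [real_inner_comm]
      exact hw
    rintro ⟨a, b⟩
    refine ⟨b • e + ((a - b * fderiv ℝ F x e) / fderiv ℝ F x v) • v, ?_⟩
    ext
    · simp
      field_simp
      ring
    · simp [inner_add_right, real_inner_smul_right, he, hv1]
  obtain ⟨U, hU, hxU, hc'⟩ := local_level (h1.prodMk h2) hs
  refine ⟨U, hU, hxU, ?_⟩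
  have h3 : {y : V | F y = 0 ∧ ⟪e, y⟫ = c} = {y | (F y, ⟪e, y⟫) = (F x, ⟪e, x⟫)} := by
    ext y
    simp [hx, hxc]
  rw [h3]
  exact hc'

/-- A regular level surface all of whose components are two-spheres has the lifting property. -/
theorem sph_lift {F : V → ℝ} (hF : ContDiff ℝ ∞ F) {e : V} (he : ‖e‖ = 1) {c : ℝ}
    (hc : ∀ x, Crit F e x → ⟪e, x⟫ ≠ c)
    (hs : ∀ x, F x = 0 → ⟪e, x⟫ = c →
      Nonempty (connectedComponentIn {x | F x = 0 ∧ ⟪e, x⟫ = c} x ≃ₜ
        Metric.sphere (0 : EuclideanSpace ℝ (Fin 3)) 1)) :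
    LiftS {x | F x = 0 ∧ ⟪e, x⟫ = c} := by
  refine liftS_of_components (level_loc hF he hc) fun x hx => ?_
  obtain ⟨Φ⟩ := hs x hx.1 hx.2
  refine LiftS.homeo Φ.symm (liftS_sphere ?_)
  simp

end Pool.Schoen
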