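import Pool.Agent.H.MP_6c077c_gt.F3.ConfSlab
import Pool.Agent.H.MP_6c077c_gt.F3.SphLift

/-! The level sets of a pencil of spheres whose components are 2-spheres. -/

set_option autoImplicit false

namespace Pool.Schoen

open Filter Set
open scoped Topology RealInnerProductSpace ContDiff

variable {V : Type*} [NormedAddCommGroup V] [InnerProductSpace ℝ V] [FiniteDimensional ℝ V]

omit [FiniteDimensional ℝ V] in
/-- The inversion maps the components of a set onto the components of its image. -/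
theorem comp_inv1 {A B : Set V} {w : V} (hA : ∀ x ∈ A, x ≠ w) (hB : B = inv1 w '' A) {x : V}
    (hx : x ∈ A) :
    connectedComponentIn B (inv1 w x) = inv1 w '' connectedComponentIn A x := by
  have hAB : ∀ z ∈ A, inv1 w z ∈ B := fun z hz => by
    rw [hB]
    exact mem_image_of_mem _ hz
  have hB1 : ∀ y ∈ B, y ≠ w ∧ inv1 w y ∈ A := by
    rw [hB]
    rintro _ ⟨z, hz, rfl⟩
    rw [inv1_inv1]
    refine ⟨fun h0 => hA z hz ?_, hz⟩
    have h1 := congrArg (inv1 w) h0
    rwa [inv1_inv1, inv1_self] at h1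
  refine Subset.antisymm ?_ ?_
  · intro y hy
    refine ⟨inv1 w y, ?_, inv1_inv1 w y⟩
    have h1 : IsPreconnected (inv1 w '' connectedComponentIn B (inv1 w x)) :=
      isPreconnected_connectedComponentIn.image _ fun z hz =>
        (inv1_contDiffAt (hB1 z (connectedComponentIn_subset _ _ hz)).1).continuousAt.continuousWithinAt
    have h2 : inv1 w '' connectedComponentIn B (inv1 w x) ⊆ A := by
      rintro _ ⟨z, hz, rfl⟩
      exact (hB1 z (connectedComponentIn_subset _ _ hz)).2
    have h3 : x ∈ inv1 w '' connectedComponentIn B (inv1 w x) :=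
      ⟨inv1 w x, mem_connectedComponentIn (hAB x hx), inv1_inv1 w x⟩
    exact h1.subset_connectedComponentIn h3 h2 (mem_image_of_mem _ hy)
  · have h1 : IsPreconnected (inv1 w '' connectedComponentIn A x) :=
      isPreconnected_connectedComponentIn.image _ fun z hz =>
        (inv1_contDiffAt (hA z (connectedComponentIn_subset _ _ hz))).continuousAt.continuousWithinAt
    refine h1.subset_connectedComponentIn ⟨x, mem_connectedComponentIn hx, rfl⟩ ?_
    rintro _ ⟨z, hz, rfl⟩
    exact hAB z (connectedComponentIn_subset _ _ hz)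

omit [FiniteDimensional ℝ V] in
theorem homeo_inv1 {A : Set V} {w : V} (hA : ∀ x ∈ A, x ≠ w) : Nonempty (A ≃ₜ inv1 w '' A) := by
  have hB1 : ∀ y ∈ inv1 w '' A, y ≠ w ∧ inv1 w y ∈ A := by
    rintro _ ⟨z, hz, rfl⟩
    rw [inv1_inv1]
    refine ⟨fun h0 => hA z hz ?_, hz⟩
    have h1 := congrArg (inv1 w) h0
    rwa [inv1_inv1, inv1_self] at h1
  refine ⟨{ toFun := fun x => ⟨inv1 w x, mem_image_of_mem _ x.2⟩
            invFun := fun y => ⟨inv1 w y, (hB1 y y.2).2⟩
            left_inv := fun x => Subtype.ext (inv1_inv1 w x)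
            right_inv := fun y => Subtype.ext (inv1_inv1 w y)
            continuous_toFun := ?_
            continuous_invFun := ?_ }⟩
  · refine Continuous.subtype_mk ?_ _
    refine continuous_iff_continuousAt.2 fun x => ?_
    exact (inv1_contDiffAt (hA x x.2)).continuousAt.comp continuous_subtype_val.continuousAt
  · refine Continuous.subtype_mk ?_ _
    refine continuous_iff_continuousAt.2 fun y => ?_
    exact (inv1_contDiffAt (hB1 y y.2).1).continuousAt.comp continuous_subtype_val.continuousAt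

/-- A regular level of the pencil all of whose components are 2-spheres. -/
theorem sph_lift_conf {F : V → ℝ} (hF : ContDiff ℝ ∞ F) (hb : Bornology.IsBounded {x | F x ≤ 0})
    (hreg : ∀ x, F x = 0 → gradient F x ≠ 0) {w a : V} (hw : F w ≠ 0) (ha : ‖a‖ = 1) {c : ℝ}
    (hc : ∀ x, F x = 0 → cNrm F w x = a ∨ cNrm F w x = -a → cHt w a x ≠ c)
    (hs : ∀ x, F x = 0 → cHt w a x = c →
      Nonempty (connectedComponentIn {x | F x = 0 ∧ cHt w a x = c} x ≃ₜ
        Metric.sphere (0 : EuclideanSpace ℝ (Fin 3)) 1)) :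
    LiftS {x | F x = 0 ∧ cHt w a x = c} := by
  obtain ⟨G, hG, hGb, hGim, hGz⟩ := conf_exists hF hb hw
  have hFw : ∀ x, F x = 0 → x ≠ w := by
    rintro x hx rfl
    exact hw hx
  have hGreg : ∀ y, G y = 0 → gradient G y ≠ 0 := by
    intro y hy
    obtain ⟨h1, h2, h3⟩ := hGz y hy
    rw [conf_gradient hF hG h1 h3]
    exact invD_ne (sub_ne_zero.2 h1) (hreg _ h2)
  have hset : {y | G y = 0 ∧ ⟪a, y⟫ = ⟪a, w⟫ + c} = inv1 w '' {x | F x = 0 ∧ cHt w a x = c} := by
    ext y
    constructor
    · rintro ⟨h1, h2⟩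
      obtain ⟨e1, e2, -⟩ := hGz y h1
      have h3 := inner_inv1 (a := a) e1
      exact ⟨inv1 w y, ⟨e2, by linarith⟩, inv1_inv1 w y⟩
    · rintro ⟨x, ⟨h1, h2⟩, rfl⟩
      have h3 : G (inv1 w x) = 0 := by
        have : inv1 w x ∈ {y | G y = 0} := by
          rw [hGim]
          exact mem_image_of_mem _ h1
        exact this
      refine ⟨h3, ?_⟩
      have h4 := inner_inv1 (a := a) (hGz _ h3).1
      rw [inv1_inv1, h2] at h4
      exact h4
  have h1 : LiftS {y | G y = 0 ∧ ⟪a, y⟫ = ⟪a, w⟫ + c} := by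
    refine sph_lift hG ha (fun y hy hyc => ?_) fun y hy hyc => ?_
    · obtain ⟨e1, e2⟩ := conf_crit hF hG hGreg ha hGz hy
      have h1 := inner_inv1 (a := a) (hGz y hy.1).1
      exact hc _ e1 e2 (by linarith)
    · obtain ⟨e1, e2, -⟩ := hGz y hy
      have h3 := inner_inv1 (a := a) e1
      have h4 : cHt w a (inv1 w y) = c := by linarith
      have h5 := comp_inv1 (w := w) (A := {x | F x = 0 ∧ cHt w a x = c})
        (fun x hx => hFw x hx.1) hset (x := inv1 w y) ⟨e2, h4⟩
      rw [inv1_inv1] at h5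
      rw [h5]
      obtain ⟨f⟩ := homeo_inv1 (w := w)
        (A := connectedComponentIn {x | F x = 0 ∧ cHt w a x = c} (inv1 w y))
        (fun x hx => hFw x (connectedComponentIn_subset _ _ hx).1)
      obtain ⟨g⟩ := hs _ e2 h4
      exact ⟨f.symm.trans g⟩
  refine liftS_inv1 (w := w) (fun y hy => (hGz y hy.1).1) ?_ h1
  rw [hset, image_image]
  simp only [inv1_inv1, image_id']

end Pool.Schoen
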