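import Pool.Agent.H.MP_6c077c_gt.F3.K3
import Pool.Agent.H.MP_6c077c_gt.F2.StepM

/-! Cuts at several spherical levels: normal form at a slice component which is a ball. -/

set_option autoImplicit false

namespace Pool.Schoen

open Filter Set
open scoped Topology RealInnerProductSpace ContDiff

variable {V : Type*} [NormedAddCommGroup V] [InnerProductSpace ℝ V] [FiniteDimensional ℝ V]

/-- At a slice component which is a ball there is a straight neck, after an admissible change of the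
function. -/
theorem step3_m {e : V} (he : ‖e‖ = 1) {f : V → ℝ} {L : Set ℝ} (hL : L.Finite)
    {A B : ℝ → ℕ → Prop} {S : Finset V} (h : K3 f e L A B S) {c : ℝ} (hc : c ∈ L) {s : ℝ}
    (hs : s = 1 ∨ s = -1) {k : (ℝ ∙ e)ᗮ → ℝ} (hk : Dom k) (hkb : IsBall k)
    (hk1 : ∀ w, k w ≤ 0 → s * f ((w : V) + c • e) ≤ 0)
    (hk2 : ∀ w, k w = 0 → k =ᶠ[𝓝 w] fun w : (ℝ ∙ e)ᗮ => s * f ((w : V) + c • e)) :
    ∃ (G : V → ℝ) (ζ R : ℝ) (S' : Finset V), (Rd G → Rd f) ∧ S'.card ≤ S.card ∧
      K3 G e L A B S' ∧ CylN (fun x => s * G x) e (c • e) ζ R ∧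
      ∀ c' ∈ L, c' ≠ c → ζ ≤ |c' - c| := by
  classical
  obtain ⟨δ, hδ, hLδ⟩ := Cy.Cyl_gap hL c
  -- straightening
  have hcr : ∀ x, f x = 0 → ⟪e, x⟫ = c → ∀ l : ℝ, gradient f x ≠ l • e := by
    intro x hx hxc l hl
    refine h.reg x (crit_of_vert hx hl) ?_
    rw [hxc]
    exact hc
  obtain ⟨F1, Φ1, a, ha, haδ, hF1, hH1, hb1, hr1, -, -, hfar, hlev, hstr, -, hno, hgerm, -⟩ :=
    straighten h.mo.smooth h.mo.bdd h.mo.reg he hδ hcr
  have hA1 : K3 F1 e L A B S := by
    refine h.hom he hH1 hF1 (fun x hx => ?_) (fun x hx => ?_)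
    · obtain ⟨l, hl⟩ := hx.vert he
      exact hgerm x l hx.1 hl
    · by_cases hxc : ⟪e, x⟫ = c
      · rw [hlev x hxc]
      · rw [(hfar x (hLδ _ hx hxc)).self_of_nhds]
  -- the slice
  obtain ⟨g, hg⟩ : ∃ g, g = slc F1 e c := ⟨_, rfl⟩
  have hgf : ∀ w, g w = f ((w : V) + c • e) := by
    intro w
    have h1 : ⟪e, (w : V) + c • e⟫ = c := by
      rw [inner_add_right, BaseDef_inner, real_inner_smul_right, real_inner_self_eq_norm_sq, he]
      ring
    rw [hg, ← hlev _ h1]
    rfl
  have hgs : ContDiff ℝ ∞ g := by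
    rw [hg]
    exact slc_smooth hF1 e c
  have hno1 : ∀ x, F1 x = 0 → ⟪e, x⟫ = c → ∀ l : ℝ, gradient F1 x ≠ l • e := fun x hx hxc =>
    hno x (by rw [hxc, sub_self, abs_zero]; exact ha.le) hx
  have hgr : ∀ y, g y = 0 → gradient g y ≠ 0 := by
    rw [hg]
    exact slc_reg hF1 he hno1
  have hgF : ∀ x, |⟪e, x⟫ - c| ≤ a → F1 x = g (hpr e x) := by
    intro x hx
    have h1 : ⟪e, x - (⟪e, x⟫ - c) • e⟫ = c := by
      rw [inner_sub_right, real_inner_smul_right, real_inner_self_eq_norm_sq, he]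
      ring
    have h2 : hpr e (x - (⟪e, x⟫ - c) • e) = hpr e x := by
      apply Subtype.ext
      rw [Cy.Cyl_hpr he, Cy.Cyl_hpr he, h1]
      module
    rw [hstr x hx, ← hlev _ h1, ← hpr_slc (f := F1) he h1, h2, hg]
  have hs0 : s ≠ 0 := by rcases hs with h | h <;> rw [h] <;> norm_num
  have hss : s * s = 1 := by rcases hs with h | h <;> rw [h] <;> norm_num
  have hsgr : ∀ (P : Type _) [NormedAddCommGroup P] [InnerProductSpace ℝ P] [CompleteSpace P]
      (u : P → ℝ) (y : P), gradient (fun z => s * u z) y = s • gradient u y := by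
    intro P _ _ _ u y
    have h1 : (fun z => s * u z) = fun z => s • u z := rfl
    have h2 : fderiv ℝ (fun z => s • u z) y = s • fderiv ℝ u y := by
      have h3 : (fun z => s • u z) = s • u := rfl
      rw [h3, fderiv_const_smul_field]
      rfl
    unfold gradient
    rw [h1, h2, map_smul]
  have hkg : ∀ w, k w = 0 → k =ᶠ[𝓝 w] fun w => s * g w := by
    intro w hw
    filter_upwards [hk2 w hw] with y hy
    rw [hy, hgf]
  -- the normal form of the ball
  obtain ⟨φ, ψ, d₀, hφ, -, hd₀, -, hle, heq, hfd⟩ := ball_normal (fun w => s * g w)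
    (contDiff_const.mul hgs) (fun w hw => by
      have hw' : g w = 0 := (mul_eq_zero.1 hw).resolve_left hs0
      rw [hsgr]
      exact smul_ne_zero hs0 (hgr w hw')) k hk hkb
    (fun w hw => by
      rw [hgf]
      exact hk1 w hw) hkg
  -- transport
  have hΦ : Dif (extH e φ) (extH e ψ) := hφ.extH he
  have hΦh : ∀ x, ⟪e, extH e φ x⟫ = ⟪e, x⟫ := extH_height he φ
  have hA2 : K3 (fun x => F1 (extH e φ x)) e L A B (S.image (extH e ψ)) := hA1.comp_dif he hφ
  obtain ⟨f1, hf1⟩ : ∃ f1, f1 = fun x => F1 (extH e φ x) := ⟨_, rfl⟩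
  rw [← hf1] at hA2
  obtain ⟨f2, hf2⟩ : ∃ f2, f2 = fun x => s * f1 x := ⟨_, rfl⟩
  have hf2g : ∀ x, |⟪e, x⟫ - c| < a → f2 x = s * g (φ (hpr e x)) := by
    intro x hx
    rw [hf2, hf1]
    show s * F1 (extH e φ x) = s * g (φ (hpr e x))
    rw [hgF (extH e φ x) (by rw [hΦh]; exact hx.le), extH_hpr he]
  have hgφ : ContDiff ℝ ∞ fun w => s * g (φ w) := contDiff_const.mul (hgs.comp hφ.smooth)
  have hf2s : ContDiff ℝ ∞ f2 := by
    rw [hf2]
    exact contDiff_const.mul hA2.mo.smooth
  have hsf : ∀ x, f1 x = s * f2 x := by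
    intro x
    rw [hf2]
    show f1 x = s * (s * f1 x)
    rw [← mul_assoc, hss, one_mul]
  have hf2good : Good f2 := by
    refine good_of_regular hf2s ?_ ?_
    · refine hA2.mo.bdd.subset fun x hx => ?_
      have hx' : f2 x = 0 := hx
      show f1 x = 0
      rw [hsf, hx', mul_zero]
    · intro x hx h0
      have hx' : f1 x = 0 := by rw [hsf, hx, mul_zero]
      refine hA2.mo.reg x hx' ?_
      have h1 : gradient f2 x = 0 := by rw [gradient, h0, map_zero]
      rw [hf2, hsgr] at h1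
      exact (smul_eq_zero.1 h1).resolve_left hs0
  obtain ⟨F3, d, hd, -, hF3, hH3, hle3, heq3, hgr3, hgerm3, -, hcyl⟩ :=
    normal_form hf2s hf2good hgφ ha hd₀ hf2g hle heq hfd
  have hno2 : ∀ x, |⟪e, x⟫ - c| < a → f2 x = 0 → ∀ l : ℝ, gradient f2 x ≠ l • e := by
    intro x hx hx0 l hl
    have hx1 : f1 x = 0 := by rw [hsf, hx0, mul_zero]
    have hx0' : F1 (extH e φ x) = 0 := by
      rw [hf1] at hx1
      exact hx1
    rw [hf2, hsgr, hf1] at hl
    have h2 : gradient (fun y => F1 (extH e φ y)) x = (s⁻¹ * l) • e := by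
      rw [mul_smul, ← hl, smul_smul, inv_mul_cancel₀ hs0, one_smul]
    have h1 := (gradient_comp_height hF1 hΦ hΦh x _).1 h2
    exact hno (extH e φ x) (by rw [hΦh]; exact hx.le) hx0' _ h1
  have hHom : Hom f1 fun x => s * F3 x := by
    rcases hs with h1 | h1
    · subst h1
      have h2 : f2 = f1 := by
        rw [hf2]
        funext x
        exact one_mul _
      rw [h2] at hH3
      simpa only [one_mul] using hH3
    · subst h1
      have h2 : (fun x => -f2 x) = f1 := by
        rw [hf2]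
        funext x
        show -(-1 * f1 x) = f1 x
        ring
      have h3 := hH3.neg
      rw [h2] at h3
      simpa only [neg_one_mul] using h3
  have hA4 : K3 (fun x => s * F3 x) e L A B (S.image (extH e ψ)) := by
    refine hA2.hom he hHom (contDiff_const.mul hF3) (fun x hx => ?_) (fun x _ => ?_)
    · obtain ⟨l, hl⟩ := hx.vert he
      have h0 : F3 x = 0 := (mul_eq_zero.1 hx.1).resolve_left hs0
      have h2 : f2 x = 0 := (heq3 x).1 h0
      obtain ⟨μ, hμ, h3⟩ := hgr3 x h2
      have h4 : F3 =ᶠ[𝓝 x] f2 := by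
        refine hgerm3 x (Or.inl ?_)
        by_contra hlt
        push Not at hlt
        refine hno2 x hlt h2 (μ⁻¹ * (s⁻¹ * l)) ?_
        rw [hsgr] at hl
        rw [mul_smul, mul_smul, ← hl, smul_smul s⁻¹, inv_mul_cancel₀ hs0, one_smul, h3, smul_smul,
          inv_mul_cancel₀ hμ.ne', one_smul]
      filter_upwards [h4] with y hy
      rw [hy, ← hsf]
    · constructor
      · intro hx
        have h0 : F3 x = 0 := (mul_eq_zero.1 hx).resolve_left hs0
        rw [hsf, (heq3 x).1 h0, mul_zero]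
      · intro hx
        have h0 : f2 x = 0 := by
          rw [hf2]
          show s * f1 x = 0
          rw [hx, mul_zero]
        show s * F3 x = 0
        rw [(heq3 x).2 h0, mul_zero]
  have hec : ⟪e, c • e⟫ = c := by
    rw [real_inner_smul_right, real_inner_self_eq_norm_sq, he]
    ring
  refine ⟨fun x => s * F3 x, a / 2, 1 + d, _, fun hR => ?_, Finset.card_image_le, hA4, ?_,
    fun c' hc' hne => ?_⟩
  · have h1 : Rd f1 := Rd.of_hom hHom hR
    rw [hf1] at h1
    have h2 : Rd F1 := (Rd.comp_dif hΦ (f := F1)).1 h1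
    exact Rd.of_hom hH1 h2
  · have h1 : (fun x => s * (s * F3 x)) = F3 := by
      funext x
      rw [← mul_assoc, hss, one_mul]
    show CylN (fun x => s * (s * F3 x)) e (c • e) (a / 2) (1 + d)
    rw [h1]
    refine ⟨he, by linarith, by linarith, fun x h1 h2 => ?_⟩
    rw [Cy.Cyl_orth he] at h2 ⊢
    rw [inner_sub_right, hec] at h1
    exact hcyl x h2.le h1
  · have := hLδ c' hc' hne
    linarith

end Pool.Schoen
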