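import Pool.Agent.H.MP_6c077c_gt.F2.Face21
import Pool.Agent.H.MP_6c077c_gt.Ix.HomB

/-! Theorem F3: the vertical displacement. The hypersurface is moved in the direction `e` near its
points with normal `e` or `-e`, by a constant plus a small linear function. -/

set_option autoImplicit false

namespace Pool.Schoen

open Filter Set Metric
open scoped Topology RealInnerProductSpace ContDiff

variable {V : Type*} [NormedAddCommGroup V] [InnerProductSpace ℝ V]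

/-- The displacement. -/
noncomputable def vu (s χ : V → ℝ) (p : ℝ × V) (x : V) : ℝ := p.1 * s x + ⟪p.2, x⟫ * χ x

/-- Its derivative. -/
noncomputable def vud (s χ : V → ℝ) (p : ℝ × V) (x w : V) : ℝ :=
  p.1 * fderiv ℝ s x w + (⟪p.2, x⟫ * fderiv ℝ χ x w + χ x * ⟪p.2, w⟫)

/-- The displaced function. -/
noncomputable def vG (F s χ : V → ℝ) (e : V) (p : ℝ × V) (x : V) : ℝ := F (x - vu s χ p x • e)

variable {F s χ : V → ℝ} {e : V}

theorem vu_smooth (hs : ContDiff ℝ ∞ s) (hχ : ContDiff ℝ ∞ χ) :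
    ContDiff ℝ ∞ fun q : (ℝ × V) × V => vu s χ q.1 q.2 := by
  unfold vu
  have h1 : ContDiff ℝ ∞ fun q : (ℝ × V) × V => s q.2 := hs.comp contDiff_snd
  have h2 : ContDiff ℝ ∞ fun q : (ℝ × V) × V => χ q.2 := hχ.comp contDiff_snd
  have h3 : ContDiff ℝ ∞ fun q : (ℝ × V) × V => ⟪q.1.2, q.2⟫ :=
    (contDiff_snd.comp contDiff_fst).inner ℝ contDiff_snd
  exact ((contDiff_fst.comp contDiff_fst).mul h1).add (h3.mul h2)

theorem vu_hasFDerivAt (hs : ContDiff ℝ ∞ s) (hχ : ContDiff ℝ ∞ χ) (p : ℝ × V) (x : V) :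
    HasFDerivAt (fun x => vu s χ p x)
      (p.1 • fderiv ℝ s x + (⟪p.2, x⟫ • fderiv ℝ χ x + χ x • innerSL ℝ p.2)) x := by
  have h1 := ((hs.differentiable (by simp)) x).hasFDerivAt
  have h2 := ((hχ.differentiable (by simp)) x).hasFDerivAt
  have h3 : HasFDerivAt (fun x : V => ⟪p.2, x⟫) (innerSL ℝ p.2) x := (innerSL ℝ p.2).hasFDerivAt
  exact (h1.const_mul p.1).add (h3.mul h2)

theorem vG_smooth (hF : ContDiff ℝ ∞ F) (hs : ContDiff ℝ ∞ s) (hχ : ContDiff ℝ ∞ χ) :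
    ContDiff ℝ ∞ fun q : (ℝ × V) × V => vG F s χ e q.1 q.2 :=
  hF.comp (contDiff_snd.sub ((vu_smooth hs hχ).smul contDiff_const))

theorem vG_smooth' (hF : ContDiff ℝ ∞ F) (hs : ContDiff ℝ ∞ s) (hχ : ContDiff ℝ ∞ χ) (p : ℝ × V) :
    ContDiff ℝ ∞ (vG F s χ e p) :=
  (vG_smooth hF hs hχ).comp (contDiff_const.prodMk contDiff_id)

theorem vG_fderiv (hF : ContDiff ℝ ∞ F) (hs : ContDiff ℝ ∞ s) (hχ : ContDiff ℝ ∞ χ) (p : ℝ × V)
    (x w : V) : fderiv ℝ (vG F s χ e p) x w =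
      fderiv ℝ F (x - vu s χ p x • e) (w - vud s χ p x w • e) := by
  have h1 := vu_hasFDerivAt hs hχ p x
  have h2 := (hasFDerivAt_id x).sub (h1.smul_const e)
  have h3 := ((hF.differentiable (by simp)) (x - vu s χ p x • e)).hasFDerivAt.comp x h2
  have h4 : fderiv ℝ (vG F s χ e p) x = _ := h3.fderiv
  rw [h4]
  rfl

theorem vG_cont (hF : ContDiff ℝ ∞ F) (hs : ContDiff ℝ ∞ s) (hχ : ContDiff ℝ ∞ χ) (w : V) :
    Continuous fun q : (ℝ × V) × V => fderiv ℝ (vG F s χ e q.1) q.2 w := by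
  have hu : Continuous fun q : (ℝ × V) × V => vu s χ q.1 q.2 := (vu_smooth hs hχ).continuous
  have h1 : Continuous fun q : (ℝ × V) × V => fderiv ℝ s q.2 w :=
    ((hs.continuous_fderiv (by simp)).comp continuous_snd).clm_apply continuous_const
  have h2 : Continuous fun q : (ℝ × V) × V => fderiv ℝ χ q.2 w :=
    ((hχ.continuous_fderiv (by simp)).comp continuous_snd).clm_apply continuous_const
  have h3 : Continuous fun q : (ℝ × V) × V => χ q.2 := hχ.continuous.comp continuous_snd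
  have hd : Continuous fun q : (ℝ × V) × V => vud s χ q.1 q.2 w := by
    unfold vud
    fun_prop
  have h4 : Continuous fun q : (ℝ × V) × V => fderiv ℝ F (q.2 - vu s χ q.1 q.2 • e) :=
    (hF.continuous_fderiv (by simp)).comp (by fun_prop)
  have h5 := h4.clm_apply (g := fun q : (ℝ × V) × V => w - vud s χ q.1 q.2 w • e) (by fun_prop)
  refine h5.congr fun q => ?_
  exact (vG_fderiv hF hs hχ q.1 q.2 w).symm

theorem vu_zero (x : V) : vu s χ 0 x = 0 := by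
  simp [vu]

theorem vu_smul (t : ℝ) (p : ℝ × V) (x : V) : vu s χ (t • p) x = t * vu s χ p x := by
  simp only [vu, Prod.smul_fst, Prod.smul_snd, smul_eq_mul, real_inner_smul_left]
  ring

theorem vud_smul (t : ℝ) (p : ℝ × V) (x w : V) : vud s χ (t • p) x w = t * vud s χ p x w := by
  simp only [vud, Prod.smul_fst, Prod.smul_snd, smul_eq_mul, real_inner_smul_left]
  ring

theorem vG_zero : vG F s χ e 0 = F := by
  funext x
  rw [vG, vu_zero, zero_smul, sub_zero]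

/-- The parameters for which the displacement is small with small derivative. -/
def VSmall (s χ : V → ℝ) (p : ℝ × V) : Prop :=
  (∀ x, |vu s χ p x| ≤ 1) ∧ ∀ x w, |vud s χ p x w| ≤ ‖w‖ / 2

theorem VSmall.smul {p : ℝ × V} (h : VSmall s χ p) {t : ℝ} (ht : t ∈ Icc (0 : ℝ) 1) :
    VSmall s χ (t • p) := by
  constructor
  · intro x
    rw [vu_smul, abs_mul, abs_of_nonneg ht.1]
    calc t * |vu s χ p x| ≤ 1 * |vu s χ p x| := mul_le_mul_of_nonneg_right ht.2 (abs_nonneg _)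
      _ ≤ 1 := by
        rw [one_mul]
        exact h.1 x
  · intro x w
    rw [vud_smul, abs_mul, abs_of_nonneg ht.1]
    calc t * |vud s χ p x w| ≤ 1 * |vud s χ p x w| :=
          mul_le_mul_of_nonneg_right ht.2 (abs_nonneg _)
      _ ≤ ‖w‖ / 2 := by
        rw [one_mul]
        exact h.2 x w

private theorem Vert_b1 (hs : ContDiff ℝ ∞ s) (cs : HasCompactSupport s) :
    ∃ C : ℝ, 0 ≤ C ∧ ∀ x, |s x| ≤ C := by
  obtain ⟨C1, hC1⟩ := cs.exists_bound_of_continuous hs.continuous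
  exact ⟨|C1|, abs_nonneg _, fun x => (hC1 x).trans (le_abs_self _)⟩

private theorem Vert_b2 (hs : ContDiff ℝ ∞ s) (cs : HasCompactSupport s) :
    ∃ C : ℝ, 0 ≤ C ∧ ∀ x, ‖fderiv ℝ s x‖ ≤ C := by
  obtain ⟨C3, hC3⟩ := (cs.fderiv (𝕜 := ℝ)).exists_bound_of_continuous
    (hs.continuous_fderiv (by simp))
  exact ⟨|C3|, abs_nonneg _, fun x => (hC3 x).trans (le_abs_self _)⟩

private theorem Vert_b3 (hχ : ContDiff ℝ ∞ χ) (cχ : HasCompactSupport χ) :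
    ∃ C : ℝ, 0 ≤ C ∧ ∀ x, ‖x‖ * |χ x| ≤ C := by
  have h4 : HasCompactSupport fun x : V => ‖x‖ * χ x := cχ.mul_left
  obtain ⟨C4, hC4⟩ := h4.exists_bound_of_continuous (continuous_norm.mul hχ.continuous)
  refine ⟨|C4|, abs_nonneg _, fun x => ?_⟩
  have := hC4 x
  rw [norm_mul, norm_norm, Real.norm_eq_abs] at this
  exact this.trans (le_abs_self _)

private theorem Vert_b4 (hχ : ContDiff ℝ ∞ χ) (cχ : HasCompactSupport χ) :
    ∃ C : ℝ, 0 ≤ C ∧ ∀ x, ‖x‖ * ‖fderiv ℝ χ x‖ ≤ C := by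
  have h5 : HasCompactSupport fun x : V => ‖x‖ * ‖fderiv ℝ χ x‖ :=
    HasCompactSupport.mul_left (cχ.fderiv (𝕜 := ℝ)).norm
  obtain ⟨C4, hC4⟩ := h5.exists_bound_of_continuous
    (continuous_norm.mul (hχ.continuous_fderiv (by simp)).norm)
  refine ⟨|C4|, abs_nonneg _, fun x => ?_⟩
  have := hC4 x
  rw [norm_mul, norm_norm, norm_norm] at this
  exact this.trans (le_abs_self _)

private theorem Vert_u {C : ℝ} {p : ℝ × V} (k1 : |p.1| * C ≤ 1 / 6)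
    (k2 : ‖p.2‖ * C ≤ 1 / 6) {x : V} (h1 : |s x| ≤ C) (h3 : ‖x‖ * |χ x| ≤ C) :
    |vu s χ p x| ≤ 1 := by
  have e1 : |p.1 * s x| ≤ 1 / 6 := by
    rw [abs_mul]
    exact (mul_le_mul_of_nonneg_left h1 (abs_nonneg _)).trans k1
  have e2 : |⟪p.2, x⟫ * χ x| ≤ 1 / 6 := by
    rw [abs_mul]
    have h6 : |⟪p.2, x⟫| ≤ ‖p.2‖ * ‖x‖ := abs_real_inner_le_norm _ _
    calc |⟪p.2, x⟫| * |χ x| ≤ ‖p.2‖ * ‖x‖ * |χ x| :=
          mul_le_mul_of_nonneg_right h6 (abs_nonneg _)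
      _ = ‖p.2‖ * (‖x‖ * |χ x|) := by ring
      _ ≤ ‖p.2‖ * C := mul_le_mul_of_nonneg_left h3 (norm_nonneg _)
      _ ≤ 1 / 6 := k2
  unfold vu
  refine (abs_add_le _ _).trans ?_
  linarith

private theorem Vert_ud {C : ℝ} (hC0 : 0 < C) {p : ℝ × V} (k1 : |p.1| * C ≤ 1 / 6)
    (k2 : ‖p.2‖ * C ≤ 1 / 6) {x : V} (h1 : |χ x| ≤ C) (h3 : ‖fderiv ℝ s x‖ ≤ C)
    (h4 : ‖x‖ * ‖fderiv ℝ χ x‖ ≤ C) (w : V) : |vud s χ p x w| ≤ ‖w‖ / 2 := by
  have hw := norm_nonneg w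
  have e1 : |p.1 * fderiv ℝ s x w| ≤ ‖w‖ / 6 := by
    rw [abs_mul]
    have h6 : |fderiv ℝ s x w| ≤ C * ‖w‖ :=
      ((fderiv ℝ s x).le_opNorm w).trans (mul_le_mul_of_nonneg_right h3 hw)
    calc |p.1| * |fderiv ℝ s x w| ≤ |p.1| * (C * ‖w‖) :=
          mul_le_mul_of_nonneg_left h6 (abs_nonneg _)
      _ = |p.1| * C * ‖w‖ := by ring
      _ ≤ 1 / 6 * ‖w‖ := mul_le_mul_of_nonneg_right k1 hw
      _ = ‖w‖ / 6 := by ring
  have e2 : |⟪p.2, x⟫ * fderiv ℝ χ x w| ≤ ‖w‖ / 6 := by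
    rw [abs_mul]
    have h6 : |⟪p.2, x⟫| ≤ ‖p.2‖ * ‖x‖ := abs_real_inner_le_norm _ _
    have h8 : |fderiv ℝ χ x w| ≤ ‖fderiv ℝ χ x‖ * ‖w‖ := (fderiv ℝ χ x).le_opNorm w
    calc |⟪p.2, x⟫| * |fderiv ℝ χ x w| ≤ (‖p.2‖ * ‖x‖) * (‖fderiv ℝ χ x‖ * ‖w‖) :=
          mul_le_mul h6 h8 (abs_nonneg _) (mul_nonneg (norm_nonneg _) (norm_nonneg _))
      _ = ‖p.2‖ * (‖x‖ * ‖fderiv ℝ χ x‖) * ‖w‖ := by ring
      _ ≤ ‖p.2‖ * C * ‖w‖ :=
          mul_le_mul_of_nonneg_right (mul_le_mul_of_nonneg_left h4 (norm_nonneg _)) hw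
      _ ≤ 1 / 6 * ‖w‖ := mul_le_mul_of_nonneg_right k2 hw
      _ = ‖w‖ / 6 := by ring
  have e3 : |χ x * ⟪p.2, w⟫| ≤ ‖w‖ / 6 := by
    rw [abs_mul]
    have h6 : |⟪p.2, w⟫| ≤ ‖p.2‖ * ‖w‖ := abs_real_inner_le_norm _ _
    calc |χ x| * |⟪p.2, w⟫| ≤ C * (‖p.2‖ * ‖w‖) := mul_le_mul h1 h6 (abs_nonneg _) hC0.le
      _ = ‖p.2‖ * C * ‖w‖ := by ring
      _ ≤ 1 / 6 * ‖w‖ := mul_le_mul_of_nonneg_right k2 hw
      _ = ‖w‖ / 6 := by ring
  unfold vud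
  refine (abs_add_le _ _).trans ?_
  have := abs_add_le (⟪p.2, x⟫ * fderiv ℝ χ x w) (χ x * ⟪p.2, w⟫)
  linarith

/-- Small parameters are fine. -/
theorem vsmall_eventually (hs : ContDiff ℝ ∞ s) (hχ : ContDiff ℝ ∞ χ) (cs : HasCompactSupport s)
    (cχ : HasCompactSupport χ) : ∀ᶠ p : ℝ × V in 𝓝 0, VSmall s χ p := by
  obtain ⟨C1, c1, hC1⟩ := Vert_b1 hs cs
  obtain ⟨C2, c2, hC2⟩ := Vert_b1 hχ cχ
  obtain ⟨C3, c3, hC3⟩ := Vert_b2 hs cs
  obtain ⟨C4, c4, hC4⟩ := Vert_b3 hχ cχ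
  obtain ⟨C5, c5, hC5⟩ := Vert_b4 hχ cχ
  obtain ⟨C, hC⟩ : ∃ C : ℝ, C = C1 + C2 + C3 + C4 + C5 + 1 := ⟨_, rfl⟩
  have hC0 : 0 < C := by linarith
  have hr : 0 < 1 / (6 * C) := by positivity
  have hrC : 1 / (6 * C) * C = 1 / 6 := by field_simp
  filter_upwards [Metric.ball_mem_nhds (0 : ℝ × V) hr] with p hp
  rw [mem_ball_zero_iff] at hp
  have hp1 : |p.1| < 1 / (6 * C) := (norm_fst_le p).trans_lt hp
  have hp2 : ‖p.2‖ < 1 / (6 * C) := (norm_snd_le p).trans_lt hp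
  have k1 : |p.1| * C ≤ 1 / 6 := by
    rw [← hrC]
    exact mul_le_mul_of_nonneg_right hp1.le hC0.le
  have k2 : ‖p.2‖ * C ≤ 1 / 6 := by
    rw [← hrC]
    exact mul_le_mul_of_nonneg_right hp2.le hC0.le
  exact ⟨fun x => Vert_u k1 k2 ((hC1 x).trans (by linarith)) ((hC4 x).trans (by linarith)),
    fun x w => Vert_ud hC0 k1 k2 ((hC2 x).trans (by linarith)) ((hC3 x).trans (by linarith))
      ((hC5 x).trans (by linarith)) w⟩

variable [CompleteSpace V]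

/-- The displaced function is regular. -/
theorem vG_reg (hF : ContDiff ℝ ∞ F) (hs : ContDiff ℝ ∞ s) (hχ : ContDiff ℝ ∞ χ)
    (hreg : ∀ x, F x = 0 → gradient F x ≠ 0) (he : ‖e‖ = 1) {p : ℝ × V} (hp : VSmall s χ p)
    {x : V} (hx : vG F s χ e p x = 0) : ∃ w, fderiv ℝ (vG F s χ e p) x w < 0 := by
  by_contra hno
  push Not at hno
  have h0 : ∀ w, fderiv ℝ (vG F s χ e p) x w = 0 := by
    intro w
    refine le_antisymm ?_ (hno w)
    have := hno (-w)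
    rw [map_neg] at this
    linarith
  obtain ⟨g, hg⟩ : ∃ g, g = gradient F (x - vu s χ p x • e) := ⟨_, rfl⟩
  have hg0 : g ≠ 0 := by
    rw [hg]
    exact hreg _ hx
  have h1 := h0 g
  rw [vG_fderiv hF hs hχ] at h1
  have h2 : ∀ w, fderiv ℝ F (x - vu s χ p x • e) w = ⟪g, w⟫ := by
    intro w
    rw [hg, gradient, InnerProductSpace.toDual_symm_apply]
  rw [h2, inner_sub_right, real_inner_self_eq_norm_sq, real_inner_smul_right] at h1
  have h3 := hp.2 x g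
  have h4 : |⟪g, e⟫| ≤ ‖g‖ := by
    have := abs_real_inner_le_norm g e
    rwa [he, mul_one] at this
  have h5 : |vud s χ p x g * ⟪g, e⟫| ≤ ‖g‖ / 2 * ‖g‖ := by
    rw [abs_mul]
    exact mul_le_mul h3 h4 (abs_nonneg _) (by positivity)
  have h6 : 0 < ‖g‖ := norm_pos_iff.2 hg0
  have h7 := (abs_le.1 h5).2
  nlinarith

end Pool.Schoen
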