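import Pool.Agent.H.MP_6c077c_gt.F3.Vert

/-! Theorem F3: the vertical displacement, homotopy and localisation of the critical points. -/

set_option autoImplicit false

namespace Pool.Schoen

open Filter Set Metric
open scoped Topology RealInnerProductSpace ContDiff

variable {V : Type*} [NormedAddCommGroup V] [InnerProductSpace ℝ V] [FiniteDimensional ℝ V]
  {F s χ : V → ℝ} {e : V}

omit [FiniteDimensional ℝ V] in
/-- The zeros are in a fixed ball. -/
theorem vG_bdd (he : ‖e‖ = 1) {R : ℝ} (hR : ∀ x, F x = 0 → ‖x‖ ≤ R) {p : ℝ × V}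
    (hp : VSmall s χ p) {x : V} (hx : vG F s χ e p x = 0) : ‖x‖ ≤ R + 1 := by
  have h1 := hR _ hx
  have h2 : x = (x - vu s χ p x • e) + vu s χ p x • e := by abel
  rw [h2]
  refine (norm_add_le _ _).trans (add_le_add h1 ?_)
  rw [norm_smul, he, mul_one]
  exact hp.1 x

/-- The homotopy. -/
theorem vG_hom (hF : ContDiff ℝ ∞ F) (hb : Bornology.IsBounded {x | F x = 0})
    (hreg : ∀ x, F x = 0 → gradient F x ≠ 0) (he : ‖e‖ = 1) (hs : ContDiff ℝ ∞ s)
    (hχ : ContDiff ℝ ∞ χ) {p : ℝ × V} (hp : VSmall s χ p) : Hom F (vG F s χ e p) := by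
  obtain ⟨R, hR⟩ := hb.exists_norm_le
  have hR' : ∀ x, F x = 0 → ‖x‖ ≤ R := hR
  have hsm : ContDiff ℝ ∞ fun q : ℝ × V => vG F s χ e (q.1 • p) q.2 := by
    have h1 : ContDiff ℝ ∞ fun q : ℝ × V => ((q.1 • p, q.2) : (ℝ × V) × V) :=
      (contDiff_fst.smul contDiff_const).prodMk contDiff_snd
    exact (vG_smooth hF hs hχ).comp h1
  refine ⟨fun t x => vG F s χ e (t • p) x, hsm.continuous, ?_, ?_, ⟨R + 1, ?_⟩, ?_⟩
  · show vG F s χ e ((0 : ℝ) • p) = F
    rw [zero_smul]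
    exact vG_zero
  · show vG F s χ e ((1 : ℝ) • p) = _
    rw [one_smul]
  · intro t ht x hx
    exact vG_bdd he hR' (hp.smul ht) hx
  · intro t ht x hx
    obtain ⟨w, hw⟩ := vG_reg hF hs hχ hreg he (hp.smul ht) hx
    refine ⟨w, ?_⟩
    have h1 : Desc (fun t x => vG F s χ e (t • p) x) (𝓝 t) x w := by
      refine desc_smooth (G := fun q : ℝ × V => vG F s χ e (q.1 • p) q.2)
        ((hsm.of_le (by exact_mod_cast le_top)).contDiffAt) ?_
      have h2 : HasFDerivAt (fun y : V => ((t, y) : ℝ × V)) (ContinuousLinearMap.inr ℝ ℝ V) x :=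
        hasFDerivAt_prodMk_right t x
      have h3 := ((hsm.differentiable (by simp)) (t, x)).hasFDerivAt.comp x h2
      have h4 : fderiv ℝ (vG F s χ e (t • p)) x = _ := h3.fderiv
      rw [h4] at hw
      simpa using hw
    exact h1.mono nhdsWithin_le_nhds

/-- The bump functions. -/
theorem vert_bumps {A B Z : Set V} (hA : IsCompact A) (hB : IsCompact B) (hZ : IsClosed Z)
    (hAB : Disjoint A B) (hAZ : Disjoint A Z) (hBZ : Disjoint B Z) :
    ∃ s χ : V → ℝ, ContDiff ℝ ∞ s ∧ ContDiff ℝ ∞ χ ∧ HasCompactSupport s ∧ HasCompactSupport χ ∧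
      (∀ y ∈ A, ∀ᶠ x in 𝓝 y, s x = 1 ∧ χ x = 1) ∧ (∀ y ∈ B, ∀ᶠ x in 𝓝 y, s x = -1 ∧ χ x = 1) ∧
      ∀ y ∈ Z, ∀ᶠ x in 𝓝 y, s x = 0 ∧ χ x = 0 := by
  have : ProperSpace V := FiniteDimensional.proper ℝ V
  obtain ⟨R, hR⟩ := (hA.union hB).isBounded.exists_norm_le
  have key : ∀ A B : Set V, IsCompact A → IsCompact B → Disjoint A B → Disjoint A Z →
      (∀ x ∈ A, ‖x‖ ≤ R) → ∃ f : V → ℝ, ContDiff ℝ ∞ f ∧ HasCompactSupport f ∧
        (∀ y ∈ A, ∀ᶠ x in 𝓝 y, f x = 1) ∧ (∀ y ∈ B, ∀ᶠ x in 𝓝 y, f x = 0) ∧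
        ∀ y ∈ Z, ∀ᶠ x in 𝓝 y, f x = 0 := by
    intro A B hA hB hAB hAZ hAR
    have hcl : IsClosed (B ∪ Z ∪ {x : V | R + 1 ≤ ‖x‖}) :=
      (hB.isClosed.union hZ).union (isClosed_le continuous_const continuous_norm)
    have hd : Disjoint (B ∪ Z ∪ {x : V | R + 1 ≤ ‖x‖}) A := by
      rw [Set.disjoint_left]
      rintro x ((hx | hx) | hx) hxA
      · exact Set.disjoint_left.1 hAB hxA hx
      · exact Set.disjoint_left.1 hAZ hxA hx
      · have h1 := hAR x hxA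
        have h2 : R + 1 ≤ ‖x‖ := hx
        linarith
    obtain ⟨f, h0, h1, -⟩ := exists_contMDiffMap_zero_one_nhds_of_isClosed
      (modelWithCornersSelf ℝ V) (n := (⊤ : ℕ∞)) hcl hA.isClosed hd
    have h0' : ∀ y ∈ B ∪ Z ∪ {x : V | R + 1 ≤ ‖x‖}, ∀ᶠ x in 𝓝 y, f x = 0 := fun y hy =>
      h0.filter_mono (nhds_le_nhdsSet hy)
    refine ⟨f, f.contMDiff.contDiff, ?_, fun y hy => h1.filter_mono (nhds_le_nhdsSet hy),
      fun y hy => h0' y (Or.inl (Or.inl hy)), fun y hy => h0' y (Or.inl (Or.inr hy))⟩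
    refine HasCompactSupport.of_support_subset_isCompact (isCompact_closedBall (0 : V) (R + 1)) ?_
    intro x hx
    rw [mem_closedBall_zero_iff]
    by_contra hcon
    exact hx (h0' x (Or.inr (not_le.1 hcon).le)).self_of_nhds
  obtain ⟨f, hf1, hf2, hf3, hf4, hf5⟩ := key A B hA hB hAB hAZ fun x hx => hR x (Or.inl hx)
  obtain ⟨g, hg1, hg2, hg3, hg4, hg5⟩ := key B A hB hA hAB.symm hBZ fun x hx => hR x (Or.inr hx)
  refine ⟨fun x => f x - g x, fun x => f x + g x, hf1.sub hg1, hf1.add hg1, hf2.sub hg2,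
    hf2.add hg2, fun y hy => ?_, fun y hy => ?_, fun y hy => ?_⟩
  · filter_upwards [hf3 y hy, hg4 y hy] with x h1 h2
    rw [h1, h2]
    norm_num
  · filter_upwards [hf4 y hy, hg3 y hy] with x h1 h2
    rw [h1, h2]
    norm_num
  · filter_upwards [hf5 y hy, hg5 y hy] with x h1 h2
    rw [h1, h2]
    norm_num

/-- Critical points of the displaced function come from those of `F`. -/
theorem vert_local (hF : ContDiff ℝ ∞ F) (hb : Bornology.IsBounded {x | F x = 0})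
    (hreg : ∀ x, F x = 0 → gradient F x ≠ 0) (he : ‖e‖ = 1) {L : Set ℝ} (hL : L.Finite)
    (hlev : ∀ x, Crit F e x → ⟪e, x⟫ ∉ L) {A B : Set V} (hAB : ∀ x, Crit F e x → x ∈ A ∨ x ∈ B)
    (hs : ContDiff ℝ ∞ s) (hχ : ContDiff ℝ ∞ χ) (cs : HasCompactSupport s)
    (cχ : HasCompactSupport χ) (hsA : ∀ y ∈ A, ∀ᶠ x in 𝓝 y, s x = 1 ∧ χ x = 1)
    (hsB : ∀ y ∈ B, ∀ᶠ x in 𝓝 y, s x = -1 ∧ χ x = 1) :
    ∀ᶠ p : ℝ × V in 𝓝 0, ∀ x, Crit (vG F s χ e p) e x → ∃ y, Crit F e y ∧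
      ((y ∈ A ∧ (∀ᶠ x' in 𝓝 x, vG F s χ e p x' = F (x' - (p.1 + ⟪p.2, x'⟫) • e)) ∧
          ∀ c ∈ L, (⟪e, x - (p.1 + ⟪p.2, x⟫) • e⟫ < c ↔ ⟪e, y⟫ < c)) ∨
        (y ∈ B ∧ (∀ᶠ x' in 𝓝 x, vG F s χ e p x' = F (x' - (-p.1 + ⟪p.2, x'⟫) • e)) ∧
          ∀ c ∈ L, (⟪e, x - (-p.1 + ⟪p.2, x⟫) • e⟫ < c ↔ ⟪e, y⟫ < c))) ∧
      (∀ c ∈ L, (⟪e, x⟫ < c ↔ ⟪e, y⟫ < c)) ∧
      (Inward (vG F s χ e p) e x → Inward F e y) ∧
      (Inward (vG F s χ e p) (-e) x → Inward F (-e) y) := by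
  have : ProperSpace V := FiniteDimensional.proper ℝ V
  obtain ⟨R, hR⟩ := hb.exists_norm_le
  have hR' : ∀ x, F x = 0 → ‖x‖ ≤ R := hR
  obtain ⟨Q, hQ⟩ : ∃ Q : ℝ × V → V → Prop, Q = fun p x => Crit (vG F s χ e p) e x →
      ∃ y, Crit F e y ∧
      ((y ∈ A ∧ (∀ᶠ x' in 𝓝 x, vG F s χ e p x' = F (x' - (p.1 + ⟪p.2, x'⟫) • e)) ∧
          ∀ c ∈ L, (⟪e, x - (p.1 + ⟪p.2, x⟫) • e⟫ < c ↔ ⟪e, y⟫ < c)) ∨
        (y ∈ B ∧ (∀ᶠ x' in 𝓝 x, vG F s χ e p x' = F (x' - (-p.1 + ⟪p.2, x'⟫) • e)) ∧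
          ∀ c ∈ L, (⟪e, x - (-p.1 + ⟪p.2, x⟫) • e⟫ < c ↔ ⟪e, y⟫ < c))) ∧
      (∀ c ∈ L, (⟪e, x⟫ < c ↔ ⟪e, y⟫ < c)) ∧
      (Inward (vG F s χ e p) e x → Inward F e y) ∧
      (Inward (vG F s χ e p) (-e) x → Inward F (-e) y) := ⟨_, rfl⟩
  have hloc : ∀ y ∈ closedBall (0 : V) (R + 1), ∀ᶠ q : (ℝ × V) × V in 𝓝 ((0 : ℝ × V), y),
      Q q.1 q.2 := by
    intro y _
    rw [hQ]
    by_cases hy0 : F y = 0
    · by_cases hyc : Crit F e y
      · -- critical points
        have hS : Tendsto (fun q : (ℝ × V) × V => q.2) (𝓝 ((0 : ℝ × V), y)) (𝓝 y) :=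
          continuous_snd.tendsto _
        have hsame : ∀ g : (ℝ × V) × V → ℝ, Tendsto g (𝓝 ((0 : ℝ × V), y)) (𝓝 ⟪e, y⟫) →
            ∀ᶠ q in 𝓝 ((0 : ℝ × V), y), ∀ c ∈ L, (g q < c ↔ ⟪e, y⟫ < c) := by
          intro g hg
          rw [hL.eventually_all]
          intro c hc
          have hne : ⟪e, y⟫ ≠ c := fun h => hlev y hyc (h ▸ hc)
          rcases lt_or_gt_of_ne hne with h | h
          · filter_upwards [hg.eventually_lt_const h] with q hq
            exact ⟨fun _ => h, fun _ => hq⟩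
          · filter_upwards [hg.eventually_const_lt h] with q hq
            exact ⟨fun h1 => absurd h1 (not_lt.2 hq.le), fun h1 => absurd h1 (not_lt.2 h.le)⟩
        have h2 := hsame (fun q => ⟪e, q.2⟫) ((continuous_const.inner continuous_snd).tendsto _)
        have h3 := hsame (fun q => ⟪e, q.2 - (q.1.1 + ⟪q.1.2, q.2⟫) • e⟫) (by
          have h4 : Continuous fun q : (ℝ × V) × V => ⟪e, q.2 - (q.1.1 + ⟪q.1.2, q.2⟫) • e⟫ := by
            fun_prop
          have h5 := h4.tendsto ((0 : ℝ × V), y)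
          simp only [Prod.fst_zero, Prod.snd_zero, inner_zero_left, add_zero, zero_smul,
            sub_zero] at h5
          exact h5)
        have h3' := hsame (fun q => ⟪e, q.2 - (-q.1.1 + ⟪q.1.2, q.2⟫) • e⟫) (by
          have h4 : Continuous fun q : (ℝ × V) × V => ⟪e, q.2 - (-q.1.1 + ⟪q.1.2, q.2⟫) • e⟫ := by
            fun_prop
          have h5 := h4.tendsto ((0 : ℝ × V), y)
          simp only [Prod.fst_zero, Prod.snd_zero, inner_zero_left, neg_zero, add_zero, zero_smul,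
            sub_zero] at h5
          exact h5)
        have h1 : ∀ᶠ q : (ℝ × V) × V in 𝓝 ((0 : ℝ × V), y),
            ((y ∈ A ∧ (∀ᶠ x' in 𝓝 q.2, vG F s χ e q.1 x' =
                F (x' - (q.1.1 + ⟪q.1.2, x'⟫) • e)) ∧
                ∀ c ∈ L, (⟪e, q.2 - (q.1.1 + ⟪q.1.2, q.2⟫) • e⟫ < c ↔ ⟪e, y⟫ < c)) ∨
              (y ∈ B ∧ (∀ᶠ x' in 𝓝 q.2, vG F s χ e q.1 x' =
                F (x' - (-q.1.1 + ⟪q.1.2, x'⟫) • e)) ∧
                ∀ c ∈ L, (⟪e, q.2 - (-q.1.1 + ⟪q.1.2, q.2⟫) • e⟫ < c ↔ ⟪e, y⟫ < c))) := by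
          rcases hAB y hyc with hyA | hyB
          · filter_upwards [hS.eventually (hsA y hyA).eventually_nhds, h3] with q hq hq3
            refine Or.inl ⟨hyA, ?_, hq3⟩
            filter_upwards [hq] with x' hx'
            rw [vG, vu, hx'.1, hx'.2, mul_one, mul_one]
          · filter_upwards [hS.eventually (hsB y hyB).eventually_nhds, h3'] with q hq hq3
            refine Or.inr ⟨hyB, ?_, hq3⟩
            filter_upwards [hq] with x' hx'
            rw [vG, vu, hx'.1, hx'.2, mul_one, mul_neg, mul_one]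
        have h6 : Tendsto (fun q : (ℝ × V) × V => fderiv ℝ (vG F s χ e q.1) q.2 e)
            (𝓝 ((0 : ℝ × V), y)) (𝓝 (fderiv ℝ F y e)) := by
          have h7 := (vG_cont (e := e) hF hs hχ e).tendsto ((0 : ℝ × V), y)
          simp only [vG_zero] at h7
          exact h7
        -- inward points
        have hin : ∀ (G : V → ℝ) (e' x : V), ‖e'‖ = 1 → Inward G e' x → fderiv ℝ G x e' < 0 := by
          intro G e' x he' hG
          obtain ⟨-, l, hl, h8⟩ := hG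
          rw [fderiv_eq_inner_gradient, h8, inner_neg_left, real_inner_smul_left,
            real_inner_self_eq_norm_sq, he']
          linarith
        have hne : ‖-e‖ = 1 := by rwa [norm_neg]
        have h8 : ∀ᶠ q : (ℝ × V) × V in 𝓝 ((0 : ℝ × V), y),
            (Inward (vG F s χ e q.1) e q.2 → Inward F e y) ∧
            (Inward (vG F s χ e q.1) (-e) q.2 → Inward F (-e) y) := by
          rcases (crit_iff he hreg y).1 hyc with hi | hi
          · have h9 := hin F e y he hi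
            filter_upwards [h6.eventually_lt_const h9] with q hq
            refine ⟨fun _ => hi, fun h10 => ?_⟩
            have h11 := hin _ _ _ hne h10
            rw [map_neg] at h11
            linarith
          · have h9 := hin F (-e) y hne hi
            rw [map_neg] at h9
            filter_upwards [h6.eventually_const_lt (show (0 : ℝ) < fderiv ℝ F y e by linarith)]
              with q hq
            refine ⟨fun h10 => ?_, fun _ => hi⟩
            have h11 := hin _ _ _ he h10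
            linarith
        filter_upwards [h1, h2, h8] with q g1 g2 g4 _
        exact ⟨y, hyc, g1, g2, g4.1, g4.2⟩
      · -- regular points which are not critical
        have hyc' : ∃ w, ⟪w, e⟫ = 0 ∧ fderiv ℝ F y w ≠ 0 := by
          by_contra hno
          push Not at hno
          exact hyc ⟨hy0, hno⟩
        obtain ⟨w, hw, hw'⟩ := hyc'
        have h7 := (vG_cont (e := e) hF hs hχ w).tendsto ((0 : ℝ × V), y)
        simp only [vG_zero] at h7
        filter_upwards [h7.eventually_ne hw'] with q hq hc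
        exact absurd (hc.2 w hw) hq
    · have h7 : Tendsto (fun q : (ℝ × V) × V => vG F s χ e q.1 q.2) (𝓝 ((0 : ℝ × V), y))
          (𝓝 (F y)) := by
        have h8 := ((vG_smooth (e := e) hF hs hχ).continuous).tendsto ((0 : ℝ × V), y)
        simp only [vG_zero] at h8
        exact h8
      filter_upwards [h7.eventually_ne hy0] with q hq hc
      exact absurd hc.1 hq
  have hall := (isCompact_closedBall (0 : V) (R + 1)).eventually_forall_of_forall_eventually hloc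
  filter_upwards [hall, vsmall_eventually hs hχ cs cχ] with p hp hsm x hx
  have h1 := hp x (mem_closedBall_zero_iff.2 (vG_bdd he hR' hsm hx.1))
  rw [hQ] at h1
  exact h1 hx

end Pool.Schoen
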